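import Mathlib
import Pool.Agent.T2H12.KF.CEnt
import Pool.Agent.Y359.PE.Prod

/-!
# Entropies of products given labels
-/

set_option autoImplicit false

namespace Pool.Agent.T2H12.KD

open Finset
open scoped Classical
open Pool.Agent.Y359.PE Pool.Agent.T2H12.KF

section image

variable {α β γ : Type*}

lemma h_image [DecidableEq β] (S : Finset α) (e : α → β) (he : ∀ x ∈ S, ∀ y ∈ S, e x = e y → x = y) (f : β → γ) :
    h (S.image e) f = h S (fun x => f (e x)) := by
  have hinj : Set.InjOn e S := fun x hx y hy hxy => he x hx y hy hxy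
  have hc : (S.image e).card = S.card := card_image_of_injOn hinj
  unfold h
  rw [hc, sum_image hinj]
  congr 1
  refine sum_congr rfl fun x _ => ?_
  congr 3
  unfold fc
  have : cl (S.image e) f (e x) = (cl S (fun x => f (e x)) x).image e := by
    ext y
    rw [mem_cl, mem_image, mem_image]
    constructor
    · rintro ⟨⟨z, hz, rfl⟩, h2⟩
      exact ⟨z, mem_cl.2 ⟨hz, h2⟩, rfl⟩
    · rintro ⟨z, hz, rfl⟩
      obtain ⟨h1, h2⟩ := mem_cl.1 hz
      exact ⟨⟨z, h1, rfl⟩, h2⟩
  rw [this]
  refine card_image_of_injOn fun y hy z hz hyz => ?_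
  exact he y (mem_cl.1 hy).1 z (mem_cl.1 hz).1 hyz

/-- the tuples -/
noncomputable def tu (k : ℕ) (A : Finset α) : Finset (Fin k → α) := Fintype.piFinset fun _ => A

lemma mem_tu {k : ℕ} {A : Finset α} {f : Fin k → α} : f ∈ tu k A ↔ ∀ i, f i ∈ A := by
  unfold tu
  exact Fintype.mem_piFinset

lemma tu_nonempty {k : ℕ} {A : Finset α} (hA : A.Nonempty) : (tu k A).Nonempty := by
  obtain ⟨a, ha⟩ := hA
  exact ⟨fun _ => a, mem_tu.2 fun _ => ha⟩

/-- adding a coordinate -/
def fcons {k : ℕ} (s : α × (Fin k → α)) : Fin (k + 1) → α := Fin.cons s.1 s.2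

lemma fcons_zero {k : ℕ} (s : α × (Fin k → α)) : fcons s 0 = s.1 := rfl

lemma fcons_succ {k : ℕ} (s : α × (Fin k → α)) (i : Fin k) : fcons s i.succ = s.2 i := rfl

lemma tu_succ (k : ℕ) (A : Finset α) : tu (k + 1) A = (A ×ˢ tu k A).image fcons := by
  ext f
  rw [mem_tu, mem_image]
  constructor
  · intro hf
    refine ⟨(f 0, fun i => f i.succ), mem_product.2 ⟨hf 0, mem_tu.2 fun i => hf i.succ⟩, ?_⟩
    funext i
    refine Fin.cases ?_ (fun j => ?_) i
    · rfl
    · rfl
  · rintro ⟨s, hs, rfl⟩ i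
    obtain ⟨h1, h2⟩ := mem_product.1 hs
    refine Fin.cases ?_ (fun j => ?_) i
    · exact h1
    · exact mem_tu.1 h2 j

lemma fcons_inj {k : ℕ} {s t : α × (Fin k → α)} (h : fcons s = fcons t) : s = t := by
  refine Prod.ext ?_ ?_
  · exact congrFun h 0
  · funext i
    exact congrFun h i.succ

lemma fcons_injective {k : ℕ} : Function.Injective (fcons : α × (Fin k → α) → _) :=
  fun _ _ h => fcons_inj h

lemma h_tu_succ (k : ℕ) (A : Finset α) (F : (Fin (k + 1) → α) → β) :
    h (tu (k + 1) A) F = h (A ×ˢ tu k A) (fun s => F (fcons s)) := by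
  rw [tu_succ, h_image (A ×ˢ tu k A) fcons (fun _ _ _ _ hxy => fcons_inj hxy) F]

lemma ce_tu_succ (k : ℕ) (A : Finset α) (F : (Fin (k + 1) → α) → β) (G : (Fin (k + 1) → α) → γ) :
    ce (tu (k + 1) A) F G = ce (A ×ˢ tu k A) (fun s => F (fcons s)) (fun s => G (fcons s)) := by
  unfold ce
  rw [h_tu_succ, h_tu_succ]

lemma card_tu_succ (k : ℕ) (A : Finset α) :
    (tu (k + 1) A).card = A.card * (tu k A).card := by
  rw [tu_succ, card_image_of_injective _ fcons_injective, card_product]

end image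

section labels

variable {α β M V Ω Ω' : Type*} [AddCommGroup M] [AddCommGroup V]

/-- the indicator of a label -/
noncomputable def sg {Θ : Type*} (a : Θ) : Θ → ℤ := fun b => if b = a then 1 else 0

lemma sg_inj {Θ : Type*} (a b : Θ) : sg a = sg b ↔ a = b := by
  constructor
  · intro h1
    have h2 := congrFun h1 a
    unfold sg at h2
    rw [if_pos rfl] at h2
    by_contra hab
    rw [if_neg hab] at h2
    exact one_ne_zero h2
  · rintro rfl
    rfl

/-- the step with labels -/
lemma step_lab (A : Finset α) (B : Finset β) (hA : A.Nonempty) (hB : B.Nonempty) (w : α → Ω)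
    (w' : β → Ω') (F : α → M) (F' : β → M) (x : α → V) (y : β → V) {τ θ : ℝ} (hθ : 0 < θ)
    (hθ1 : θ ≤ 1 / 3) (hx : (nz A x : ℝ) ≤ τ * A.card) (hy : (nz B y : ℝ) ≤ τ * B.card) :
    (1 - 2 / Real.log (1 / θ) - τ / θ) * (ce A (fun u => (w u, F u)) x +
      ce B (fun u => (w' u, F' u)) y) ≤
      ce (A ×ˢ B) (fun s => ((w s.1, w' s.2), F s.1 + F' s.2)) (fun s => x s.1 + y s.2) := by
  set W : α → (Ω → ℤ) × (Ω' → ℤ) × M := fun u => (sg (w u), 0, F u) with hW
  set W' : β → (Ω → ℤ) × (Ω' → ℤ) × M := fun u => (0, sg (w' u), F' u) with hW'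
  have key := step A B hA hB W W' x y hθ hθ1 hx hy
  have e1 : ce A (fun u => (w u, F u)) x = h A (fun u => (W u, x u)) - h A W := by
    unfold ce
    congr 1
    · refine h_congr fun u _ v _ => ?_
      simp only [hW, Prod.mk.injEq, sg_inj, true_and]
    · refine h_congr fun u _ v _ => ?_
      simp only [hW, Prod.mk.injEq, sg_inj, true_and]
  have e2 : ce B (fun u => (w' u, F' u)) y = h B (fun u => (W' u, y u)) - h B W' := by
    unfold ce
    congr 1
    · refine h_congr fun u _ v _ => ?_
      simp only [hW', Prod.mk.injEq, sg_inj, true_and]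
    · refine h_congr fun u _ v _ => ?_
      simp only [hW', Prod.mk.injEq, sg_inj, true_and]
  have e3 : ce (A ×ˢ B) (fun s => ((w s.1, w' s.2), F s.1 + F' s.2)) (fun s => x s.1 + y s.2) =
      h (A ×ˢ B) (fun s => (W s.1 + W' s.2, x s.1 + y s.2)) -
        h (A ×ˢ B) (fun s => W s.1 + W' s.2) := by
    unfold ce
    congr 1
    · refine h_congr fun u _ v _ => ?_
      simp only [hW, hW', Prod.mk_add_mk, add_zero, zero_add, Prod.mk.injEq, sg_inj]
      tauto
    · refine h_congr fun u _ v _ => ?_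
      simp only [hW, hW', Prod.mk_add_mk, add_zero, zero_add, Prod.mk.injEq, sg_inj]
      tauto
  rw [e1, e2, e3]
  exact key

variable {ι : Type*}

lemma ce_mk_empty (S : Finset α) (w : α → Ω) (X : α → ι → V) : ce S w (mk ∅ X) = 0 := by
  refine ce_const _ _ _ fun x _ y _ _ => ?_
  rw [mk_eq_iff]
  intro p hp
  exact absurd hp (notMem_empty _)

lemma ce_mk_insert (S : Finset α) (w : α → Ω) (J : Finset ι) (p : ι) (X : α → ι → V) :
    ce S w (mk (insert p J) X) = ce S w (mk J X) + ce S (fun u => (w u, mk J X u))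
      (fun u => X u p) := by
  rw [← ce_chain]
  have h1 : ∀ x y : α, mk (insert p J) X x = mk (insert p J) X y ↔
      (mk J X x, X x p) = (mk J X y, X y p) := by
    intro x y
    rw [mk_eq_iff, Prod.mk.injEq, mk_eq_iff]
    constructor
    · intro h
      exact ⟨fun q hq => h q (mem_insert_of_mem hq), h p (mem_insert_self _ _)⟩
    · rintro ⟨h1, h2⟩ q hq
      rcases mem_insert.1 hq with rfl | h3
      · exact h2
      · exact h1 q h3
  refine le_antisymm ?_ ?_
  · exact ce_mono _ _ _ _ fun x _ y _ _ hxy => (h1 x y).2 hxy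
  · exact ce_mono _ _ _ _ fun x _ y _ _ hxy => (h1 x y).1 hxy

/-- **Two independent vectors, given labels.** -/
theorem two_lab (A : Finset α) (B : Finset β) (hA : A.Nonempty) (hB : B.Nonempty) (w : α → Ω)
    (w' : β → Ω') (X : α → ι → V) (Y : β → ι → V) {τ θ : ℝ} (hθ : 0 < θ) (hθ1 : θ ≤ 1 / 3)
    (T : Finset ι) (hX : ∀ p ∈ T, (nz A (fun a => X a p) : ℝ) ≤ τ * A.card)
    (hY : ∀ p ∈ T, (nz B (fun b => Y b p) : ℝ) ≤ τ * B.card) :
    (1 - 2 / Real.log (1 / θ) - τ / θ) * (ce A w (mk T X) + ce B w' (mk T Y)) ≤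
      ce (A ×ˢ B) (fun s => (w s.1, w' s.2)) (mk T (fun s : α × β => X s.1 + Y s.2)) := by
  induction T using Finset.induction_on with
  | empty =>
    rw [ce_mk_empty, ce_mk_empty, add_zero, mul_zero]
    exact ce_nonneg _ _ _
  | insert p T hp ih =>
    have ih' := ih (fun q hq => hX q (mem_insert_of_mem hq)) (fun q hq =>
      hY q (mem_insert_of_mem hq))
    have st := step_lab A B hA hB w w' (mk T X) (mk T Y) (fun a => X a p) (fun b => Y b p) hθ hθ1
      (hX p (mem_insert_self _ _)) (hY p (mem_insert_self _ _))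
    rw [ce_mk_insert, ce_mk_insert, ce_mk_insert]
    have e1 : (fun s : α × β => ((w s.1, w' s.2), mk T X s.1 + mk T Y s.2)) =
        fun s : α × β => ((w s.1, w' s.2), mk T (fun s : α × β => X s.1 + Y s.2) s) := by
      funext s
      rw [mk_add]
    rw [e1] at st
    change _ ≤ ce (A ×ˢ B) (fun s => ((w s.1, w' s.2), mk T (fun s : α × β => X s.1 + Y s.2) s))
      (fun s => X s.1 p + Y s.2 p) at st
    change _ ≤ ce (A ×ˢ B) (fun s => (w s.1, w' s.2)) (mk T (fun s : α × β => X s.1 + Y s.2)) +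
      ce (A ×ˢ B) (fun s => ((w s.1, w' s.2), mk T (fun s : α × β => X s.1 + Y s.2) s))
      (fun s => X s.1 p + Y s.2 p)
    linarith

end labels

section copies

variable {α V Ω ι : Type*} [AddCommGroup V]

lemma sum_fcons {k : ℕ} (X : α → ι → V) (s : α × (Fin k → α)) :
    ∑ i, X (fcons s i) = X s.1 + ∑ i, X (s.2 i) := by
  rw [Fin.sum_univ_succ]
  rfl

lemma nz_tu_succ (k : ℕ) (A : Finset α) (x : (Fin (k + 1) → α) → V) :
    nz (tu (k + 1) A) x = nz (A ×ˢ tu k A) (fun s => x (fcons s)) := by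
  unfold nz
  rw [tu_succ, filter_image, card_image_of_injective _ fcons_injective]

/-- the number of the tuples with a nonzero sum -/
lemma nz_tu (A : Finset α) (X : α → ι → V) {τ : ℝ} (p : ι)
    (hX : (nz A (fun a => X a p) : ℝ) ≤ τ * A.card) (k : ℕ) :
    (nz (tu k A) (fun f => ∑ i, X (f i) p) : ℝ) ≤ k * τ * (tu k A).card := by
  induction k with
  | zero =>
    have : nz (tu 0 A) (fun f => ∑ i, X (f i) p) = 0 := by
      unfold nz
      rw [card_eq_zero, filter_eq_empty_iff]
      intro f _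
      simp
    rw [this]
    simp
  | succ k ih =>
    rw [nz_tu_succ, card_tu_succ]
    have e1 := nz_prod_le A (tu k A) (fun a => X a p) (fun f => ∑ i, X (f i) p)
    have e2 : (fun s : α × (Fin k → α) => ∑ i, X (fcons s i) p) =
        fun s => X s.1 p + ∑ i, X (s.2 i) p := by
      funext s
      rw [Fin.sum_univ_succ]
      rfl
    rw [e2]
    have e3 : (nz (A ×ˢ tu k A) (fun s => X s.1 p + ∑ i, X (s.2 i) p) : ℝ) ≤
        nz A (fun a => X a p) * (tu k A).card + A.card * nz (tu k A) (fun f => ∑ i, X (f i) p) := by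
      exact_mod_cast e1
    refine e3.trans ?_
    push_cast
    have e4 := mul_le_mul_of_nonneg_right hX (show (0 : ℝ) ≤ (tu k A).card by positivity)
    have e5 := mul_le_mul_of_nonneg_left ih (show (0 : ℝ) ≤ A.card by positivity)
    nlinarith

/-- **Many independent copies, given labels.** -/
theorem copies_lab (A : Finset α) (hA : A.Nonempty) (w : α → Ω) (X : α → ι → V) {τ θ : ℝ}
    (hτ : 0 ≤ τ) (hθ : 0 < θ) (hθ1 : θ ≤ 1 / 3) (K : ℕ)
    (hκ : 2 / Real.log (1 / θ) + K * τ / θ ≤ 1) (T : Finset ι)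
    (hX : ∀ p ∈ T, (nz A (fun a => X a p) : ℝ) ≤ τ * A.card) (k : ℕ) (hk : 1 ≤ k) (hkK : k ≤ K) :
    (1 - 2 / Real.log (1 / θ) - K * τ / θ) ^ (k - 1) * k * ce A w (mk T X) ≤
      ce (tu k A) (fun f i => w (f i)) (mk T (fun f => ∑ i, X (f i))) := by
  set c := 1 - 2 / Real.log (1 / θ) - K * τ / θ with hc
  have hc0 : 0 ≤ c := by rw [hc]; linarith
  have hc1 : c ≤ 1 := by
    rw [hc]
    have hl : 0 < Real.log (1 / θ) := by
      refine Real.log_pos ?_
      rw [lt_div_iff₀ hθ]
      linarith
    have : 0 ≤ 2 / Real.log (1 / θ) := by positivity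
    have : 0 ≤ K * τ / θ := by positivity
    linarith
  have hh := ce_nonneg A w (mk T X)
  induction k, hk using Nat.le_induction with
  | base =>
    rw [ce_tu_succ]
    simp only [Nat.sub_self, pow_zero, Nat.cast_one, one_mul]
    have e1 : ce A w (mk T X) = ce (A ×ˢ tu 0 A) (fun s => w s.1) (fun s => mk T X s.1) := by
      unfold ce
      rw [h_fst A (tu 0 A) hA (tu_nonempty hA) w,
        h_fst A (tu 0 A) hA (tu_nonempty hA) (fun u => (w u, mk T X u))]
    rw [e1]
    have h1 : ∀ x y : α × (Fin 0 → α), (fun i => w (fcons x i)) = (fun i => w (fcons y i)) ↔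
        w x.1 = w y.1 := by
      intro x y
      constructor
      · intro h
        exact congrFun h 0
      · intro h
        funext i
        refine Fin.cases ?_ (fun j => Fin.elim0 j) i
        exact h
    refine le_of_eq ?_
    unfold ce
    congr 1
    · refine h_congr fun x _ y _ => ?_
      rw [Prod.mk.injEq, Prod.mk.injEq, h1, mk_eq_iff, mk_eq_iff]
      simp [fcons_zero]
    · refine h_congr fun x _ y _ => ?_
      rw [h1]
  | succ k hk ih =>
    have ih' := ih (by omega)
    have hkK' : (k : ℝ) ≤ K := by exact_mod_cast (by omega : k ≤ K)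
    have hK1 : (1 : ℝ) ≤ K := by exact_mod_cast (by omega : 1 ≤ K)
    have e1 := two_lab A (tu k A) hA (tu_nonempty hA) w (fun f i => w (f i)) X
      (fun f => ∑ i, X (f i)) (τ := K * τ) hθ hθ1 T (fun p hp => by
        refine (hX p hp).trans ?_
        have : τ ≤ K * τ := by nlinarith
        exact mul_le_mul_of_nonneg_right this (by positivity)) (fun p hp => by
        have h1 := nz_tu A X p (hX p hp) k
        have h2 : (fun f : Fin k → α => (∑ i, X (f i)) p) = fun f => ∑ i, X (f i) p := by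
          funext f
          rw [Finset.sum_apply]
        rw [h2]
        refine h1.trans ?_
        have : (k : ℝ) * τ ≤ K * τ := mul_le_mul_of_nonneg_right hkK' hτ
        exact mul_le_mul_of_nonneg_right this (by positivity))
    rw [← hc] at e1
    rw [ce_tu_succ]
    have e2 : ce (A ×ˢ tu k A) (fun s i => w (fcons s i)) (fun s =>
        mk T (fun f => ∑ i, X (f i)) (fcons s)) = ce (A ×ˢ tu k A)
        (fun s => (w s.1, fun i => w (s.2 i))) (mk T (fun s => X s.1 + ∑ i, X (s.2 i))) := by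
      have h1 : ∀ x y : α × (Fin k → α), (fun i => w (fcons x i)) = (fun i => w (fcons y i)) ↔
          ((w x.1, fun i => w (x.2 i)) : Ω × (Fin k → Ω)) = (w y.1, fun i => w (y.2 i)) := by
        intro x y
        rw [Prod.mk.injEq]
        constructor
        · intro h
          exact ⟨congrFun h 0, funext fun i => congrFun h i.succ⟩
        · rintro ⟨h1, h2⟩
          funext i
          refine Fin.cases ?_ (fun j => ?_) i
          · exact h1
          · exact congrFun h2 j
      have h2 : ∀ x : α × (Fin k → α), mk T (fun f => ∑ i, X (f i)) (fcons x) =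
          mk T (fun s : α × (Fin k → α) => X s.1 + ∑ i, X (s.2 i)) x := by
        intro x
        unfold Pool.Agent.Y359.PE.mk
        simp only
        rw [sum_fcons]
      simp only [h2]
      exact ce_congr_left _ _ _ _ fun x _ y _ => h1 x y
    rw [e2]
    refine le_trans ?_ e1
    have hp1 : c ^ (k - 1) ≤ 1 := pow_le_one₀ hc0 hc1
    have hp0 : 0 ≤ c ^ (k - 1) := pow_nonneg hc0 _
    have e5 : c ^ (k + 1 - 1) = c * c ^ (k - 1) := by
      rw [← pow_succ']
      congr 1
      omega
    rw [e5]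
    push_cast
    have e6 : c ^ (k - 1) * ce A w (mk T X) ≤ ce A w (mk T X) := by nlinarith
    calc c * c ^ (k - 1) * (k + 1) * ce A w (mk T X)
        = c * (c ^ (k - 1) * ce A w (mk T X) + c ^ (k - 1) * k * ce A w (mk T X)) := by ring
      _ ≤ c * (ce A w (mk T X) + ce (tu k A) (fun f i => w (f i))
          (mk T (fun f => ∑ i, X (f i)))) := by
        refine mul_le_mul_of_nonneg_left ?_ hc0
        linarith

end copies

end Pool.Agent.T2H12.KD
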