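import Mathlib
import Pool.Agent.T2H12.KD.Lab

/-!
# The products: the entropy of the exponents of the popular primes is lost
-/

set_option autoImplicit false

namespace Pool.Agent.T2H12.KD

open Finset
open scoped Classical
open Pool.Agent.Y359.PE Pool.Agent.T2H12.KF

lemma exists_mode {α : Type*} (S : Finset α) (f : α → ℕ) :
    ∃ v : ℕ, ((S.filter fun x => f x ≠ v).card : ℝ) ≤ S.card * h S f := by
  rcases S.eq_empty_or_nonempty with h0 | hS
  · subst h0
    exact ⟨0, by simp⟩
  obtain ⟨x₀, hx₀, hmax⟩ := exists_max_image S (fc S f) hS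
  refine ⟨f x₀, ?_⟩
  have hc : (0 : ℝ) < S.card := by exact_mod_cast card_pos.2 hS
  have h1 : (S.filter fun x => f x ≠ f x₀).card + fc S f x₀ = S.card := by
    have h2 := card_filter_add_card_filter_not (s := S) (fun x => f x = f x₀)
    have h3 : fc S f x₀ = (S.filter fun x => f x = f x₀).card := by
      unfold fc
      congr 1
      ext y
      rw [mem_cl, mem_filter]
    rw [h3, add_comm]
    exact h2
  have h2 : ((S.filter fun x => f x ≠ f x₀).card : ℝ) = S.card - fc S f x₀ := by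
    have : ((S.filter fun x => f x ≠ f x₀).card : ℝ) + fc S f x₀ = S.card := by
      exact_mod_cast h1
    linarith
  rw [h2]
  unfold h
  rw [mul_div_cancel₀ _ hc.ne']
  have hf := fc_posR (f := f) hx₀
  have h3 : ∑ _x ∈ S, (Real.log S.card - Real.log (fc S f x₀)) ≤
      ∑ x ∈ S, (Real.log S.card - Real.log (fc S f x)) := by
    refine sum_le_sum fun x hx => ?_
    have h4 : (fc S f x : ℝ) ≤ fc S f x₀ := by exact_mod_cast hmax x hx
    have h5 := Real.log_le_log (fc_posR hx) h4
    linarith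
  refine le_trans ?_ h3
  rw [sum_const, nsmul_eq_mul]
  have h4 := Real.log_le_sub_one_of_pos (show 0 < (fc S f x₀ : ℝ) / S.card by positivity)
  rw [Real.log_div hf.ne' hc.ne'] at h4
  have h5 : (fc S f x₀ : ℝ) = S.card * (fc S f x₀ / S.card) := by field_simp
  have h6 : 1 - (fc S f x₀ : ℝ) / S.card ≤ Real.log S.card - Real.log (fc S f x₀) := by linarith
  have h7 := mul_le_mul_of_nonneg_left h6 hc.le
  linarith

lemma h_le_log' {α β : Type*} [DecidableEq β] {S : Finset α} (hS : S.Nonempty) (f : α → β) :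
    h S f ≤ Real.log (S.image f).card := by
  have e1 : ∀ d1 d2 : DecidableEq β, @Finset.image _ _ d1 f S = @Finset.image _ _ d2 f S := by
    intro d1 d2
    have e2 : d1 = d2 := Subsingleton.elim _ _
    rw [e2]
  have h1 := h_le_log hS f
  rw [e1 _ ‹DecidableEq β›] at h1
  exact h1

/-- the exponents -/
def va (a : ℤ) (p : ℕ) : ℤ := (fa a p : ℤ)

/-- the exponents of the primes in `P` -/
noncomputable def wp (P : Finset ℕ) : ℤ → ℕ → ℤ := mk P va

lemma wp_eq_iff {P : Finset ℕ} {a b : ℤ} : wp P a = wp P b ↔ ∀ p ∈ P, fa a p = fa b p := by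
  unfold wp
  rw [mk_eq_iff]
  refine forall₂_congr fun p _ => ?_
  unfold va
  exact Nat.cast_inj

/-- centered exponents -/
lemma exists_center (A : Finset ℤ) {Ω : Type} (w : ℤ → Ω) : ∃ e : Ω → ℕ → ℕ, ∀ q : ℕ,
    (nz A (fun a => va a q - e (w a) q) : ℝ) ≤ ce A w (fun a => fa a q) * A.card := by
  have h1 : ∀ (ω : Ω) (q : ℕ), ∃ v : ℕ,
      (((A.filter fun a => w a = ω).filter fun a => fa a q ≠ v).card : ℝ) ≤
      (A.filter fun a => w a = ω).card * h (A.filter fun a => w a = ω) (fun a => fa a q) :=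
    fun ω q => exists_mode (A.filter fun a => w a = ω) (fun a => fa a q)
  choose e he using h1
  refine ⟨e, fun q => ?_⟩
  rcases A.eq_empty_or_nonempty with h0 | hA
  · subst h0
    simp [nz]
  have hc : (0 : ℝ) < A.card := by exact_mod_cast card_pos.2 hA
  have h2 := avg_cl A w (fun u => if fa u q ≠ e (w u) q then (1 : ℝ) else 0)
  have h3 : (nz A (fun a => va a q - e (w a) q) : ℝ) =
      ∑ u ∈ A, if fa u q ≠ e (w u) q then (1 : ℝ) else 0 := by
    rw [← sum_filter, sum_const, nsmul_eq_mul, mul_one]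
    congr 1
    refine nz_eq _ _ _ fun a => ?_
    rw [mem_filter]
    refine and_congr_right fun _ => ?_
    unfold va
    omega
  rw [h3, ← h2]
  have h4 : ∀ u ∈ A, (∑ v ∈ cl A w u, if fa v q ≠ e (w v) q then (1 : ℝ) else 0) / fc A w u ≤
      h (cl A w u) (fun a => fa a q) := by
    intro u hu
    rw [div_le_iff₀ (fc_posR hu)]
    have h5 := he (w u) q
    have h6 : ∑ v ∈ cl A w u, (if fa v q ≠ e (w v) q then (1 : ℝ) else 0) =
        (((A.filter fun a => w a = w u).filter fun a => fa a q ≠ e (w u) q).card : ℝ) := by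
      rw [← sum_filter, sum_const, nsmul_eq_mul, mul_one]
      congr 2
      ext v
      rw [mem_filter, mem_filter, mem_cl, mem_filter]
      constructor
      · rintro ⟨⟨h7, h8⟩, h9⟩
        rw [h8] at h9
        exact ⟨⟨h7, h8⟩, h9⟩
      · rintro ⟨⟨h7, h8⟩, h9⟩
        rw [← h8] at h9
        exact ⟨⟨h7, h8⟩, h9⟩
    rw [h6]
    refine h5.trans (le_of_eq ?_)
    rw [mul_comm]
    rfl
  refine (sum_le_sum h4).trans (le_of_eq ?_)
  unfold ce
  rw [chain, div_mul_cancel₀ _ hc.ne']

/-- **The product sets.** -/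
theorem prod_lab (A : Finset ℤ) (hA : A.Nonempty) (h0 : (0 : ℤ) ∉ A) (P : Finset ℕ) {τ θ : ℝ}
    (hτ : 0 ≤ τ) (hθ : 0 < θ) (hθ1 : θ ≤ 1 / 3) (K : ℕ)
    (hκ : 2 / Real.log (1 / θ) + K * τ / θ ≤ 1)
    (hP : ∀ q ∈ pr A \ P, ce A (wp P) (fun a => fa a q) ≤ τ) (k : ℕ) (hk : 1 ≤ k) (hkK : k ≤ K) :
    h A (wp P) + (1 - 2 / Real.log (1 / θ) - K * τ / θ) ^ (k - 1) * k *
      (Real.log A.card - Real.log 2 - h A (wp P)) ≤ Real.log (pk k A).card := by
  set c := 1 - 2 / Real.log (1 / θ) - K * τ / θ with hc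
  have hc0 : 0 ≤ c := by rw [hc]; linarith
  obtain ⟨e, he⟩ := exists_center A (wp P)
  set T := pr A \ P with hT
  set Y : ℤ → ℕ → ℤ := fun a q => va a q - e (wp P a) q with hY
  have hcop := copies_lab A hA (wp P) Y hτ hθ hθ1 K hκ T (fun p hp => by
    refine (he p).trans ?_
    exact mul_le_mul_of_nonneg_right (hP p hp) (by positivity)) k hk hkK
  rw [← hc] at hcop
  -- the entropy of all the exponents
  have hall : Real.log A.card - Real.log 2 - h A (wp P) ≤ ce A (wp P) (mk T Y) := by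
    unfold ce
    have h1 := h_ge_short A A hA (fun x => (wp P x, mk T Y x)) (Subset.refl _) (F := 2) (by
      intro x hx
      have h2 := fc_le_two A h0 (fun _ => 0) hx
      have h3 : fc A (fun x => (wp P x, mk T Y x)) x ≤ fc A (mk (pr A) (Y359.PE.X fun _ => 0)) x := by
        unfold fc
        refine card_le_card fun y hy => ?_
        rw [mem_cl] at hy ⊢
        refine ⟨hy.1, ?_⟩
        obtain ⟨h4, h5⟩ := Prod.mk.inj hy.2
        rw [mk_X_eq_iff]
        intro p hp
        by_cases hpP : p ∈ P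
        · exact wp_eq_iff.1 h4 p hpP
        · have h6 := (mk_eq_iff.1 h5) p (mem_sdiff.2 ⟨hp, hpP⟩)
          simp only [hY] at h6
          rw [h4] at h6
          have h7 : va y p = va x p := by linarith
          unfold va at h7
          exact_mod_cast h7
      exact_mod_cast h3.trans h2)
    have hcA : (A.card : ℝ) ≠ 0 := by exact_mod_cast (card_pos.2 hA).ne'
    rw [div_self hcA, one_mul] at h1
    linarith
  -- the products
  have hZ : h (tu k A) (fun f => ∏ i, f i) ≤ Real.log (pk k A).card := by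
    exact h_le_log' (tu_nonempty (k := k) hA) (fun f : Fin k → ℤ => ∏ i, f i)
  have hne : ∀ f ∈ tu k A, ∀ i, f i ≠ 0 := fun f hf i h => h0 (h ▸ mem_tu.1 hf i)
  have hsum : ∀ (J : Finset ℕ) (f g : Fin k → ℤ), mk J (fun f : Fin k → ℤ => ∑ i, va (f i)) f =
      mk J (fun f : Fin k → ℤ => ∑ i, va (f i)) g ↔ ∀ p ∈ J, ∑ i, fa (f i) p =
      ∑ i, fa (g i) p := by
    intro J f g
    rw [mk_eq_iff]
    refine forall₂_congr fun p _ => ?_
    rw [Finset.sum_apply, Finset.sum_apply]
    unfold va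
    norm_cast
  have h1 : h (tu k A) (fun f => (mk P (fun f : Fin k → ℤ => ∑ i, va (f i)) f,
      mk T (fun f : Fin k → ℤ => ∑ i, va (f i)) f)) ≤ h (tu k A) (fun f => ∏ i, f i) := by
    refine h_mono _ _ _ fun f hf g hg hfg => ?_
    have h2 : ∀ p, ∑ i, fa (f i) p = ∑ i, fa (g i) p := by
      intro p
      rw [← fa_prod f (hne f hf), ← fa_prod g (hne g hg), hfg]
    rw [Prod.mk.injEq, hsum, hsum]
    exact ⟨fun p _ => h2 p, fun p _ => h2 p⟩
  have h2 : h (tu k A) (fun f => (mk P (fun f : Fin k → ℤ => ∑ i, va (f i)) f,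
      mk T (fun f : Fin k → ℤ => ∑ i, va (f i)) f)) =
      h (tu k A) (mk P (fun f : Fin k → ℤ => ∑ i, va (f i))) +
      ce (tu k A) (mk P (fun f : Fin k → ℤ => ∑ i, va (f i)))
        (mk T (fun f : Fin k → ℤ => ∑ i, va (f i))) := by
    unfold ce
    ring
  have h3 : ce (tu k A) (fun f i => wp P (f i)) (mk T (fun f => ∑ i, Y (f i))) ≤
      ce (tu k A) (mk P (fun f : Fin k → ℤ => ∑ i, va (f i)))
        (mk T (fun f : Fin k → ℤ => ∑ i, va (f i))) := by
    refine le_trans ?_ (ce_anti (tu k A) (mk P (fun f : Fin k → ℤ => ∑ i, va (f i)))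
      (fun f i => wp P (f i)) _ ?_)
    · refine ce_mono _ _ _ _ fun f _ g _ h1 h2 => ?_
      rw [hsum] at h2
      rw [mk_eq_iff]
      intro p hp
      have h3 := h2 p hp
      rw [Finset.sum_apply, Finset.sum_apply]
      simp only [hY]
      rw [sum_sub_distrib, sum_sub_distrib]
      have h4 : ∑ i, ((e (wp P (f i)) p : ℕ) : ℤ) = ∑ i, ((e (wp P (g i)) p : ℕ) : ℤ) :=
        sum_congr rfl fun i _ => by
          have h6 : wp P (f i) = wp P (g i) := congrFun h1 i
          rw [h6]
      have h5 : ∑ i, va (f i) p = ∑ i, va (g i) p := by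
        unfold va
        exact_mod_cast h3
      rw [h4, h5]
    · intro f _ g _ hfg
      rw [hsum]
      intro p hp
      refine sum_congr rfl fun i _ => ?_
      have := congrFun hfg i
      exact wp_eq_iff.1 this p hp
  have h4 : h A (wp P) ≤ h (tu k A) (mk P (fun f : Fin k → ℤ => ∑ i, va (f i))) := by
    obtain ⟨k', rfl⟩ : ∃ k', k = k' + 1 := ⟨k - 1, by omega⟩
    rw [h_tu_succ]
    have h5 := cell_left A (tu k' A) (tu_nonempty hA) (wp P) (fun f => ∑ i, wp P (f i))
    refine h5.trans (le_of_eq ?_)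
    congr 1
    funext s
    funext p
    simp only [wp, Pi.add_apply, Finset.sum_apply, Pool.Agent.Y359.PE.mk]
    split_ifs
    · rw [Fin.sum_univ_succ]
      rfl
    · simp
  have h5 : c ^ (k - 1) * k * (Real.log A.card - Real.log 2 - h A (wp P)) ≤
      c ^ (k - 1) * k * ce A (wp P) (mk T Y) :=
    mul_le_mul_of_nonneg_left hall (by positivity)
  linarith

end Pool.Agent.T2H12.KD
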