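import Mathlib
import Pool.Agent.T2H12.KF.Spine

/-!
# The bit lemma for random bounded multipliers
-/

set_option autoImplicit false

namespace Pool.Agent.T2H12.KD

open Finset
open scoped Classical
open Pool.Agent.Y359.PE Pool.Agent.T2H12.KF

variable {α β M : Type} [AddCommGroup M]

/-- the entropy of the bit `a = 0` given the sum with the multiplier `m` -/
noncomputable def hm (m : ℤ) (U : Finset α) (V : Finset β) (a : α → M) (b : β → M) : ℝ :=
  ce (U ×ˢ V) (fun s => m • a s.1 + b s.2) (fun s => decide (a s.1 = 0))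

lemma hm_le_bit (m : ℤ) (U : Finset α) (V : Finset β) (hU : U.Nonempty) (hV : V.Nonempty)
    (a : α → M) (b : β → M) : hm m U V a b ≤ h U (fun x => decide (a x = 0)) := by
  unfold hm
  refine (ce_le_h _ _ _).trans (le_of_eq ?_)
  exact h_fst U V hU hV (fun x => decide (a x = 0))

lemma hm_eq_hb (m : ℤ) (U : Finset α) (V : Finset β) (a : α → M) (b : β → M)
    (hm0 : ∀ x ∈ U, m • a x = 0 ↔ a x = 0) : hm m U V a b = hb U V (fun x => m • a x) b := by
  unfold hm hb ce
  congr 1
  refine h_congr fun x hx y hy => ?_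
  rw [Prod.mk.injEq, Prod.mk.injEq, decide_eq_decide, decide_eq_decide,
    hm0 _ (mem_product.1 hx).1, hm0 _ (mem_product.1 hy).1]

lemma nz_smul (m : ℤ) (U : Finset α) (a : α → M) (hm0 : ∀ x ∈ U, m • a x = 0 ↔ a x = 0) :
    nz U (fun x => m • a x) = nz U a := by
  unfold nz
  congr 1
  refine filter_congr fun x hx => ?_
  rw [ne_eq, hm0 x hx]

/-- the entropy of a bit which is rarely nonzero -/
lemma h_isz_le (S : Finset α) (a : α → M) {θ : ℝ} (hθ : 0 < θ) :
    h S (isz a) ≤ θ + (nz S a : ℝ) / S.card / θ := by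
  rcases S.eq_empty_or_nonempty with h0 | hS
  · subst h0
    simp [h, hθ.le]
  have hc : (0 : ℝ) < S.card := by exact_mod_cast card_pos.2 hS
  rcases Nat.eq_zero_or_pos (nz S a) with h1 | h1
  · have h2 : h S (isz a) = 0 := by
      refine h_const _ _ fun x hx y hy => ?_
      have hz : ∀ x ∈ S, a x = 0 := by
        intro x hx
        by_contra hne
        have : 0 < nz S a := card_pos.2 ⟨x, mem_filter.2 ⟨hx, hne⟩⟩
        omega
      rw [isz_eq, hz x hx, hz y hy]
    rw [h2]
    positivity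
  · have h2 := bit_le S a hS h1
    have h3 : (0 : ℝ) < nz S a := by exact_mod_cast h1
    set t : ℝ := (nz S a : ℝ) / S.card with ht
    have ht0 : 0 < t := by positivity
    have h4 : (S.card : ℝ) / nz S a = 1 / t := by rw [ht, one_div_div]
    rw [h4] at h2
    have h5 := h2.trans (ent_le_sqrt ht0)
    refine le_trans h5 ?_
    have h6 : Real.sqrt t * Real.sqrt t = t := Real.mul_self_sqrt ht0.le
    have h7 : 0 ≤ (θ - Real.sqrt t) ^ 2 := sq_nonneg _
    have h8 : 2 * Real.sqrt t * θ ≤ θ * θ + t := by nlinarith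
    have h9 : θ + t / θ = (θ * θ + t) / θ := by field_simp
    rw [h9, le_div_iff₀ hθ]
    exact h8

/-- the entropy of a predicate which is rarely true -/
lemma h_rare (S : Finset α) (e : α → Prop) {θ : ℝ} (hθ : 0 < θ) :
    h S (fun x => decide (e x)) ≤ θ + ((S.filter e).card : ℝ) / S.card / θ := by
  set a : α → ℤ := fun x => if e x then 1 else 0 with ha
  have e1 : h S (fun x => decide (e x)) = h S (isz a) := by
    refine h_congr fun x _ y _ => ?_
    rw [decide_eq_decide, isz_eq]
    simp only [ha]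
    by_cases c1 : e x <;> by_cases c2 : e y <;> simp [c1, c2]
  have e2 : nz S a = (S.filter e).card := by
    refine nz_eq _ _ _ fun x => ?_
    rw [mem_filter]
    refine and_congr_right fun _ => ?_
    simp only [ha]
    by_cases c1 : e x <;> simp [c1]
  rw [e1, ← e2]
  exact h_isz_le S a hθ

/-- the popular values -/
noncomputable def pv (V : Finset β) (b : β → M) (m₁ : ℝ) : Finset M :=
  (V.filter fun y => (V.card : ℝ) ≤ m₁ * fc V b y).image b

omit [AddCommGroup M] in
lemma pv_card (V : Finset β) (hV : V.Nonempty) (b : β → M) {m₁ : ℝ} (hm₁ : 0 ≤ m₁) :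
    ((pv V b m₁).card : ℝ) ≤ m₁ := by
  have hc : (0 : ℝ) < V.card := by exact_mod_cast card_pos.2 hV
  have h1 : ∑ r ∈ pv V b m₁, ((V.filter fun y => b y = r).card : ℝ) ≤ V.card := by
    have h2 : ∑ r ∈ pv V b m₁, (V.filter fun y => b y = r).card ≤ V.card := by
      rw [← card_biUnion]
      · exact card_le_card (by
          intro y hy
          rw [mem_biUnion] at hy
          obtain ⟨r, _, hr⟩ := hy
          exact (mem_filter.1 hr).1)
      · intro r _ r' _ hrr
        refine disjoint_filter.2 ?_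
        intro y _ h3 h4
        exact hrr (h3.symm.trans h4)
    exact_mod_cast h2
  have h2 : ∀ r ∈ pv V b m₁, (V.card : ℝ) ≤ m₁ * ((V.filter fun y => b y = r).card : ℝ) := by
    intro r hr
    unfold pv at hr
    rw [mem_image] at hr
    obtain ⟨y, hy, rfl⟩ := hr
    exact (mem_filter.1 hy).2
  have h3 := sum_le_sum h2
  rw [sum_const, nsmul_eq_mul, ← mul_sum] at h3
  have h4 := mul_le_mul_of_nonneg_left h1 hm₁
  exact le_of_mul_le_mul_right (h3.trans h4) hc

omit [AddCommGroup M] in
lemma pv_compl (V : Finset β) (hV : V.Nonempty) (b : β → M) {m₁ : ℝ} (hm₁ : 1 < m₁) :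
    ((V.filter fun y => b y ∉ pv V b m₁).card : ℝ) * Real.log m₁ ≤ V.card * h V b := by
  have hc : (0 : ℝ) < V.card := by exact_mod_cast card_pos.2 hV
  have hl : 0 < Real.log m₁ := Real.log_pos hm₁
  unfold h
  rw [mul_div_cancel₀ _ hc.ne']
  rw [← nsmul_eq_mul, ← sum_const]
  calc ∑ _y ∈ V.filter (fun y => b y ∉ pv V b m₁), Real.log m₁
      ≤ ∑ y ∈ V.filter (fun y => b y ∉ pv V b m₁), (Real.log V.card - Real.log (fc V b y)) := by
        refine sum_le_sum fun y hy => ?_
        obtain ⟨hyV, hy2⟩ := mem_filter.1 hy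
        have h1 : m₁ * fc V b y < V.card := by
          by_contra hcon
          exact hy2 (mem_image_of_mem b (mem_filter.2 ⟨hyV, not_lt.1 hcon⟩))
        have h2 := fc_posR (f := b) hyV
        have h3 := Real.log_le_log (by positivity) h1.le
        rw [Real.log_mul (by linarith) h2.ne'] at h3
        linarith
    _ ≤ ∑ y ∈ V, (Real.log V.card - Real.log (fc V b y)) := by
        refine sum_le_sum_of_subset_of_nonneg (filter_subset _ _) fun y hy _ => ?_
        have h2 := fc_posR (f := b) hy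
        have h3 : (fc V b y : ℝ) ≤ V.card := by exact_mod_cast fc_le
        have := Real.log_le_log h2 h3
        linarith

/-- the wrong predictions -/
def er (m : ℤ) (a : α → M) (b : β → M) (R : Finset M) (s : α × β) : Prop :=
  ¬ (a s.1 = 0 ↔ m • a s.1 + b s.2 ∈ R)

/-- the prediction of the bit -/
lemma hm_le_pred (m : ℤ) (U : Finset α) (V : Finset β) (a : α → M) (b : β → M) (R : Finset M)
    {θ : ℝ} (hθ : 0 < θ) :
    hm m U V a b ≤ θ + (((U ×ˢ V).filter (er m a b R)).card : ℝ) / (U ×ˢ V).card / θ := by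
  refine le_trans ?_ (h_rare (U ×ˢ V) (er m a b R) hθ)
  unfold hm
  refine le_trans (ce_mono (U ×ˢ V) _ _ (fun s => decide (er m a b R s))
    fun x _ y _ h1 h2 => ?_) (ce_le_h _ _ _)
  rw [decide_eq_decide] at h2 ⊢
  have h1' : m • a x.1 + b x.2 = m • a y.1 + b y.2 := h1
  unfold er at h2
  rw [h1'] at h2
  tauto

/-- the number of wrong predictions -/
lemma count_err (Q : Finset ℤ) (U : Finset α) (V : Finset β) (a : α → M) (b : β → M)
    (R : Finset M) (hinj : ∀ x ∈ U, a x ≠ 0 → ∀ m ∈ Q, ∀ m' ∈ Q, m • a x = m' • a x → m = m') :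
    ∑ m ∈ Q, (((U ×ˢ V).filter (er m a b R)).card : ℝ) ≤
      Q.card * (U.card * (V.filter fun y => b y ∉ R).card) + U.card * V.card * R.card := by
  have h1 : ∀ m ∈ Q, (((U ×ˢ V).filter (er m a b R)).card : ℝ) ≤
      U.card * (V.filter fun y => b y ∉ R).card +
      ((U ×ˢ V).filter fun s => a s.1 ≠ 0 ∧ m • a s.1 + b s.2 ∈ R).card := by
    intro m _
    have h2 : (U ×ˢ V).filter (er m a b R) ⊆
        (U ×ˢ (V.filter fun y => b y ∉ R)) ∪
        (U ×ˢ V).filter fun s => a s.1 ≠ 0 ∧ m • a s.1 + b s.2 ∈ R := by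
      intro s hs
      obtain ⟨h3, h4⟩ := mem_filter.1 hs
      rw [mem_union, mem_product, mem_filter, mem_filter]
      by_cases c : a s.1 = 0
      · left
        refine ⟨(mem_product.1 h3).1, (mem_product.1 h3).2, fun h5 => h4 ?_⟩
        rw [c, smul_zero, zero_add]
        simp [h5]
      · right
        refine ⟨h3, c, ?_⟩
        by_contra h5
        exact h4 ⟨fun h => absurd h c, fun h => absurd h h5⟩
    have h3 := (card_le_card h2).trans (card_union_le _ _)
    rw [card_product] at h3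
    exact_mod_cast h3
  refine (sum_le_sum h1).trans ?_
  rw [sum_add_distrib, sum_const, nsmul_eq_mul]
  refine add_le_add le_rfl ?_
  have h2 : ∑ m ∈ Q, (((U ×ˢ V).filter fun s => a s.1 ≠ 0 ∧ m • a s.1 + b s.2 ∈ R).card : ℝ) =
      ∑ s ∈ U ×ˢ V, ((Q.filter fun m => a s.1 ≠ 0 ∧ m • a s.1 + b s.2 ∈ R).card : ℝ) := by
    have h3 : ∑ m ∈ Q, ((U ×ˢ V).filter fun s => a s.1 ≠ 0 ∧ m • a s.1 + b s.2 ∈ R).card =
      ∑ s ∈ U ×ˢ V, (Q.filter fun m => a s.1 ≠ 0 ∧ m • a s.1 + b s.2 ∈ R).card := by
      simp only [card_filter]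
      exact sum_comm
    exact_mod_cast h3
  rw [h2]
  have h3 : ∀ s ∈ U ×ˢ V, ((Q.filter fun m => a s.1 ≠ 0 ∧ m • a s.1 + b s.2 ∈ R).card : ℝ) ≤
      R.card := by
    intro s hs
    have hsU := (mem_product.1 hs).1
    by_cases c : a s.1 = 0
    · have : Q.filter (fun m => a s.1 ≠ 0 ∧ m • a s.1 + b s.2 ∈ R) = ∅ := by
        rw [filter_eq_empty_iff]
        rintro m _ ⟨h4, _⟩
        exact h4 c
      rw [this, card_empty, Nat.cast_zero]
      positivity
    · have : (Q.filter fun m => a s.1 ≠ 0 ∧ m • a s.1 + b s.2 ∈ R).card ≤ R.card := by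
        refine card_le_card_of_injOn (fun m => m • a s.1 + b s.2) ?_ ?_
        · intro m hm
          exact (mem_filter.1 hm).2.2
        · intro m hm m' hm' hmm
          exact hinj _ hsU c m (mem_filter.1 hm).1 m' (mem_filter.1 hm').1 (add_right_cancel hmm)
      exact_mod_cast this
  refine (sum_le_sum h3).trans (le_of_eq ?_)
  rw [sum_const, nsmul_eq_mul, card_product]
  push_cast
  ring

end Pool.Agent.T2H12.KD
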