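import Mathlib
import Pool.Agent.T2H12.KD.Lam

/-!
# One level with random multipliers
-/

set_option autoImplicit false

namespace Pool.Agent.T2H12.KD

open Finset
open scoped Classical
open Pool.Agent.Y359.PE Pool.Agent.T2H12.KF

/-- the bit lemma -/
def BitG (δ C : ℝ) : Prop := ∀ (α β M : Type) [AddCommGroup M] (U : Finset α) (V : Finset β),
  U.Nonempty → V.Nonempty → ∀ (a : α → M) (b : β → M), hb U V a b ≤
    δ * (h U (isz a) + h V b) + C * ((nz U a : ℝ) / U.card) * h V b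

lemma exists_bitG {δ : ℝ} (hδ : 0 < δ) (hδ1 : δ ≤ 1) : ∃ C : ℝ, 2 ≤ C ∧ BitG δ C := by
  obtain ⟨C, hC1, hC⟩ := bit_lemma hδ hδ1
  refine ⟨max C 2, le_max_right _ _, ?_⟩
  intro α β M _ U V hU hV a b
  refine (hC U V hU hV a b).trans ?_
  have h1 : (0 : ℝ) ≤ (nz U a : ℝ) / U.card := by positivity
  have h2 := h_nonneg V b
  have h3 : C * ((nz U a : ℝ) / U.card) * h V b ≤
      max C 2 * ((nz U a : ℝ) / U.card) * h V b := by
    gcongr
    exact le_max_left _ _
  exact add_le_add le_rfl h3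

variable {α β M : Type} [AddCommGroup M]

lemma isz_smul (m : ℤ) (U : Finset α) (a : α → M) (hm0 : ∀ x ∈ U, m • a x = 0 ↔ a x = 0) :
    h U (isz fun x => m • a x) = h U (isz a) := by
  refine h_congr fun x hx y hy => ?_
  rw [isz_eq, isz_eq, hm0 x hx, hm0 y hy]

lemma hm_le_isz (m : ℤ) (U : Finset α) (V : Finset β) (hU : U.Nonempty) (hV : V.Nonempty)
    (a : α → M) (b : β → M) : hm m U V a b ≤ h U (isz a) := hm_le_bit m U V hU hV a b

/-- the case of few exits -/
lemma hm_few {δ C : ℝ} (hδ : 0 < δ) (hB : BitG δ C) (m : ℤ) (U : Finset α) (V : Finset β)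
    (hU : U.Nonempty) (hV : V.Nonempty) (a : α → M) (b : β → M)
    (hm0 : ∀ x ∈ U, m • a x = 0 ↔ a x = 0) (h1 : C * ((nz U a : ℝ) / U.card) ≤ δ)
    (h2 : (nz U a : ℝ) / U.card ≤ 1 / 2) :
    hm m U V a b ≤ δ * h U (isz a) + 4 * δ * (1 - (nz U a : ℝ) / U.card) * h V b := by
  rw [hm_eq_hb m U V a b hm0]
  refine (hB α β M U V hU hV (fun x => m • a x) b).trans ?_
  rw [nz_smul m U a hm0, isz_smul m U a hm0]
  have h3 := h_nonneg V b
  have h4 := mul_le_mul_of_nonneg_right h1 h3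
  have h5 : 2 * δ * h V b ≤ 4 * δ * (1 - (nz U a : ℝ) / U.card) * h V b := by
    have h6 : 0 ≤ δ * h V b := by positivity
    nlinarith
  linarith

lemma nz_le_card (U : Finset α) (a : α → M) : (nz U a : ℝ) ≤ U.card := by
  exact_mod_cast card_le_card (filter_subset _ _)

/-- **One level, any multiplier.** -/
theorem small_level {δ C : ℝ} (hδ : 0 < δ) (hδ1 : δ ≤ 1) (hC : 2 ≤ C) (hB : BitG δ C) (m : ℤ)
    (U : Finset α) (V : Finset β) (hU : U.Nonempty) (hV : V.Nonempty) (a : α → M) (b : β → M)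
    (hm0 : ∀ x ∈ U, m • a x = 0 ↔ a x = 0) :
    hm m U V a b ≤ δ * h U (isz a) + 4 * δ * (1 - (nz U a : ℝ) / U.card) * h V b +
      (2 * Real.log 2 + 1 + Real.log (C / δ)) * ((nz U a : ℝ) / U.card) := by
  have hc : (0 : ℝ) < U.card := by exact_mod_cast card_pos.2 hU
  have hl2 : 0 < Real.log 2 := Real.log_pos (by norm_num)
  have hCδ : 1 ≤ C / δ := by
    rw [le_div_iff₀ hδ]
    linarith
  have hlC : 0 ≤ Real.log (C / δ) := Real.log_nonneg hCδ
  set t : ℝ := (nz U a : ℝ) / U.card with ht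
  have ht0 : 0 ≤ t := by positivity
  have ht1 : t ≤ 1 := by
    rw [ht, div_le_one hc]
    exact nz_le_card U a
  have hH := h_nonneg V b
  have hη := h_nonneg U (isz a)
  have b1 := hm_le_isz m U V hU hV a b
  have k1 : 0 ≤ δ * h U (isz a) := by positivity
  have k2 : 0 ≤ 4 * δ * (1 - t) * h V b := by
    have : 0 ≤ 1 - t := by linarith
    positivity
  rcases le_or_gt (1 / 2) t with h1 | h1
  · have g1 : h U (isz a) ≤ Real.log 2 := h_bool_le hU _
    have g2 : Real.log 2 ≤ 2 * Real.log 2 * t := by nlinarith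
    have g3 : 0 ≤ (1 + Real.log (C / δ)) * t := by positivity
    linarith
  rcases le_or_gt (C * t) δ with h2 | h2
  · have := hm_few hδ hB m U V hU hV a b hm0 h2 h1.le
    have g3 : 0 ≤ (2 * Real.log 2 + 1 + Real.log (C / δ)) * t := by positivity
    linarith
  · have ht0' : 0 < t := by
      by_contra hcon
      have : t = 0 := le_antisymm (not_lt.1 hcon) ht0
      rw [this, mul_zero] at h2
      linarith
    have hn0 : 0 < nz U a := by
      by_contra hcon
      have h3 : nz U a = 0 := by omega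
      rw [ht, h3] at ht0'
      simp at ht0'
    have g5 : h U (isz a) ≤ (nz U a : ℝ) / U.card * (1 + Real.log (U.card / nz U a)) :=
      bit_le U a hU hn0
    have g6 : (U.card : ℝ) / nz U a = 1 / t := by rw [ht, one_div_div]
    rw [g6] at g5
    change h U (isz a) ≤ t * (1 + Real.log (1 / t)) at g5
    have g7 : Real.log (1 / t) ≤ Real.log (C / δ) := by
      refine Real.log_le_log (by positivity) ?_
      rw [div_le_div_iff₀ ht0' hδ]
      linarith
    have g8 : t * (1 + Real.log (1 / t)) ≤ t * (1 + Real.log (C / δ)) :=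
      mul_le_mul_of_nonneg_left (by linarith) ht0
    have g9 : 0 ≤ 2 * Real.log 2 * t := by positivity
    linarith

/-- the bit when almost all elements exit -/
lemma isz_most (U : Finset α) (a : α → M) {θ : ℝ} (hθ : 0 < θ) :
    h U (isz a) ≤ θ + (1 - (nz U a : ℝ) / U.card) / θ := by
  rcases U.eq_empty_or_nonempty with h0 | hU
  · subst h0
    have : h (∅ : Finset α) (isz a) = 0 := by simp [h]
    rw [this]
    simp only [card_empty, Nat.cast_zero, div_zero, sub_zero]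
    positivity
  have hc : (0 : ℝ) < U.card := by exact_mod_cast card_pos.2 hU
  have h1 := h_rare U (fun x => a x = 0) hθ
  have h2 : h U (fun x => decide (a x = 0)) = h U (isz a) := rfl
  rw [h2] at h1
  refine h1.trans (le_of_eq ?_)
  have h3 : (U.filter fun x => a x = 0).card + nz U a = U.card :=
    card_filter_add_card_filter_not _
  have h4 : ((U.filter fun x => a x = 0).card : ℝ) + nz U a = U.card := by exact_mod_cast h3
  have h5 : ((U.filter fun x => a x = 0).card : ℝ) / U.card = 1 - (nz U a : ℝ) / U.card := by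
    rw [eq_sub_iff_add_eq, ← add_div, h4, div_self hc.ne']
  rw [h5]

/-- **One level, many multipliers.** -/
theorem large_level {δ C δ₁ : ℝ} (hδ : 0 < δ) (hδ1 : δ ≤ 1) (hC : 2 ≤ C) (hB : BitG δ C)
    (hδ₁ : 0 < δ₁) : ∃ K₀ : ℝ, 0 < K₀ ∧
    ∀ (α β M : Type) [AddCommGroup M] (U : Finset α) (V : Finset β) (a : α → M) (b : β → M)
      (Q Q₀ : Finset ℤ), U.Nonempty → V.Nonempty → Q₀ ⊆ Q → Q₀.card ≤ 1 →
      (∀ m ∈ Q, m ∉ Q₀ → ∀ x ∈ U, m • a x = 0 ↔ a x = 0) →
      (∀ x ∈ U, a x ≠ 0 → ∀ m ∈ Q, ∀ m' ∈ Q, m • a x = m' • a x → m = m') → K₀ ≤ Q.card →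
      ∑ m ∈ Q, hm m U V a b ≤ Q.card * (δ * h U (isz a) +
        4 * δ * (1 - (nz U a : ℝ) / U.card) * h V b + δ₁ * ((nz U a : ℝ) / U.card)) +
        h U (isz a) := by
  have hl2 : 0 < Real.log 2 := Real.log_pos (by norm_num)
  set t₀ : ℝ := δ / C with ht₀
  have ht₀0 : 0 < t₀ := by positivity
  set θ₂ : ℝ := δ₁ * t₀ / 2 with hθ₂
  have hθ₂0 : 0 < θ₂ := by positivity
  set τ₂ : ℝ := θ₂ ^ 2 with hτ₂
  have hτ₂0 : 0 < τ₂ := by positivity
  set H₂ : ℝ := Real.log 2 / (4 * δ * τ₂) with hH₂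
  have hH₂0 : 0 < H₂ := by positivity
  set θ₃ : ℝ := δ₁ * t₀ / 3 with hθ₃
  have hθ₃0 : 0 < θ₃ := by positivity
  set m₁ : ℝ := Real.exp (H₂ / θ₃ ^ 2) with hm₁
  have hm₁1 : 1 < m₁ := by
    rw [hm₁, Real.one_lt_exp_iff]
    positivity
  refine ⟨m₁ / θ₃ ^ 2, by positivity, ?_⟩
  intro α β M _ U V a b Q Q₀ hU hV hQ₀ hQ₀c hgood hinj hK
  have hc : (0 : ℝ) < U.card := by exact_mod_cast card_pos.2 hU
  have hcV : (0 : ℝ) < V.card := by exact_mod_cast card_pos.2 hV
  set t : ℝ := (nz U a : ℝ) / U.card with ht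
  have ht0 : 0 ≤ t := by positivity
  have ht1 : t ≤ 1 := by
    rw [ht, div_le_one hc]
    exact nz_le_card U a
  have hH := h_nonneg V b
  have hη := h_nonneg U (isz a)
  have k1 : 0 ≤ δ * h U (isz a) := by positivity
  have k2 : 0 ≤ 4 * δ * (1 - t) * h V b := by
    have : 0 ≤ 1 - t := by linarith
    positivity
  have k3 : 0 ≤ δ₁ * t := by positivity
  have hQc : (0 : ℝ) ≤ Q.card := Nat.cast_nonneg _
  -- a common bound for all the multipliers
  have common : ∀ x : ℝ, h U (isz a) ≤ x → x ≤ δ * h U (isz a) + 4 * δ * (1 - t) * h V b +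
      δ₁ * t → ∑ m ∈ Q, hm m U V a b ≤ Q.card * (δ * h U (isz a) +
        4 * δ * (1 - t) * h V b + δ₁ * t) + h U (isz a) := by
    intro x hx1 hx2
    have h1 : ∑ m ∈ Q, hm m U V a b ≤ ∑ _m ∈ Q, (δ * h U (isz a) +
        4 * δ * (1 - t) * h V b + δ₁ * t) :=
      sum_le_sum fun m _ => ((hm_le_isz m U V hU hV a b).trans hx1).trans hx2
    rw [sum_const, nsmul_eq_mul] at h1
    linarith
  rcases le_or_gt (C * t) δ with h1 | h1
  · -- few exits
    have h2 : t ≤ 1 / 2 := by nlinarith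
    have h3 : ∀ m ∈ Q, hm m U V a b ≤ (δ * h U (isz a) + 4 * δ * (1 - t) * h V b + δ₁ * t) +
        if m ∈ Q₀ then h U (isz a) else 0 := by
      intro m hm
      split_ifs with h4
      · have := hm_le_isz m U V hU hV a b
        linarith
      · have := hm_few hδ hB m U V hU hV a b (hgood m hm h4) h1 h2
        linarith
    refine (sum_le_sum h3).trans ?_
    rw [sum_add_distrib, sum_const, nsmul_eq_mul, ← sum_filter, sum_const, nsmul_eq_mul]
    have h5 : ((Q.filter fun m => m ∈ Q₀).card : ℝ) ≤ 1 := by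
      have h6 : (Q.filter fun m => m ∈ Q₀).card ≤ Q₀.card :=
        card_le_card fun m hm => (mem_filter.1 hm).2
      exact_mod_cast h6.trans hQ₀c
    have h6 := mul_le_mul_of_nonneg_right h5 hη
    linarith
  have htt : t₀ ≤ t := by
    rw [ht₀, div_le_iff₀ (by linarith)]
    linarith
  rcases lt_or_ge (1 - t) τ₂ with h2 | h2
  · -- almost all elements exit
    refine common (δ₁ * t) ?_ (by linarith)
    have h3 := isz_most U a hθ₂0
    have h4 : (1 - t) / θ₂ ≤ θ₂ := by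
      rw [div_le_iff₀ hθ₂0]
      nlinarith
    have h5 : δ₁ * t₀ ≤ δ₁ * t := mul_le_mul_of_nonneg_left htt hδ₁.le
    have h6 : θ₂ + θ₂ = δ₁ * t₀ := by
      rw [hθ₂]
      ring
    linarith
  rcases le_or_gt H₂ (h V b) with h3 | h3
  · -- `b` has large entropy
    refine common (Real.log 2) (h_bool_le hU _) ?_
    have h4 : Real.log 2 = 4 * δ * τ₂ * H₂ := by
      rw [hH₂]
      field_simp
    have h5 : 4 * δ * τ₂ * H₂ ≤ 4 * δ * (1 - t) * h V b := by
      have h6 : τ₂ * H₂ ≤ (1 - t) * h V b := mul_le_mul h2 h3 hH₂0.le (by linarith)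
      have h7 := mul_le_mul_of_nonneg_left h6 (show 0 ≤ 4 * δ by positivity)
      linarith
    linarith
  · -- the kernel
    set R := pv V b m₁ with hR
    have hR1 : (R.card : ℝ) ≤ m₁ := pv_card V hV b (by linarith)
    have hR2 := pv_compl V hV b hm₁1
    rw [← hR] at hR2
    have hlm : Real.log m₁ = H₂ / θ₃ ^ 2 := by rw [hm₁, Real.log_exp]
    have hR3 : ((V.filter fun y => b y ∉ R).card : ℝ) ≤ θ₃ ^ 2 * V.card := by
      rw [hlm] at hR2
      have h4 : ((V.filter fun y => b y ∉ R).card : ℝ) * (H₂ / θ₃ ^ 2) ≤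
          (θ₃ ^ 2 * V.card) * (H₂ / θ₃ ^ 2) := by
        refine hR2.trans ?_
        have h5 : (θ₃ ^ 2 * V.card) * (H₂ / θ₃ ^ 2) = V.card * H₂ := by field_simp
        rw [h5]
        exact mul_le_mul_of_nonneg_left h3.le hcV.le
      exact le_of_mul_le_mul_right h4 (by positivity)
    have h4 : ∑ m ∈ Q, hm m U V a b ≤ ∑ m ∈ Q, (θ₃ + (((U ×ˢ V).filter
        (er m a b R)).card : ℝ) / (U ×ˢ V).card / θ₃) :=
      sum_le_sum fun m _ => hm_le_pred m U V a b R hθ₃0
    have h5 := count_err Q U V a b R hinj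
    have hUV : (((U ×ˢ V).card : ℕ) : ℝ) = U.card * V.card := by
      rw [card_product]
      push_cast
      rfl
    rw [sum_add_distrib, sum_const, nsmul_eq_mul, ← sum_div, ← sum_div, hUV] at h4
    have h6 : (∑ m ∈ Q, (((U ×ˢ V).filter (er m a b R)).card : ℝ)) / (U.card * V.card) / θ₃ ≤
        (Q.card * θ₃ ^ 2 + Q.card * θ₃ ^ 2) / θ₃ := by
      refine div_le_div_of_nonneg_right ?_ hθ₃0.le
      rw [div_le_iff₀ (mul_pos hc hcV)]
      refine h5.trans ?_
      have h7 : (Q.card : ℝ) * (U.card * (V.filter fun y => b y ∉ R).card) ≤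
          Q.card * (U.card * (θ₃ ^ 2 * V.card)) :=
        mul_le_mul_of_nonneg_left (mul_le_mul_of_nonneg_left hR3 hc.le) hQc
      have h8 : m₁ ≤ Q.card * θ₃ ^ 2 := by
        rw [div_le_iff₀ (by positivity)] at hK
        exact hK
      have h9 : (U.card : ℝ) * V.card * R.card ≤ U.card * V.card * (Q.card * θ₃ ^ 2) :=
        mul_le_mul_of_nonneg_left (hR1.trans h8) (mul_pos hc hcV).le
      linarith
    have h7 : (Q.card * θ₃ ^ 2 + Q.card * θ₃ ^ 2) / θ₃ = Q.card * (2 * θ₃) := by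
      field_simp
      ring
    rw [h7] at h6
    have h8 : θ₃ + 2 * θ₃ = δ₁ * t₀ := by
      rw [hθ₃]
      ring
    have h9 : δ₁ * t₀ ≤ δ₁ * t := mul_le_mul_of_nonneg_left htt hδ₁.le
    have h10 : ∑ m ∈ Q, hm m U V a b ≤ Q.card * (δ₁ * t₀) := by
      rw [← h8]
      linarith
    have h11 : (Q.card : ℝ) * (δ₁ * t₀) ≤ Q.card * (δ * h U (isz a) +
        4 * δ * (1 - t) * h V b + δ₁ * t) := mul_le_mul_of_nonneg_left (by linarith) hQc
    linarith

end Pool.Agent.T2H12.KD
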