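import Mathlib
import Pool.Agent.T2H12.KD.Lam2

/-!
# The spine lemma with random multipliers
-/

set_option autoImplicit false

namespace Pool.Agent.T2H12.KD

open Finset
open scoped Classical
open Pool.Agent.Y359.PE Pool.Agent.T2H12.KF

/-- the entropy of a function of the first summand given the sum with the multiplier `m` -/
noncomputable def hzm {β : Type*} (m : ℤ) (U V : Finset ℤ) (f : ℤ → β) : ℝ :=
  ce (U ×ˢ V) (fun s => m * s.1 + s.2) (fun s => f s.1)

/-- the residue -/
def rs (p l : ℕ) (x : ℤ) : ZMod (p ^ (l + 1)) := (x : ZMod (p ^ (l + 1)))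

lemma rs_zero {p : ℕ} (hp : p.Prime) {l : ℕ} {x : ℤ} (hx : x ≠ 0) :
    rs p l x = 0 ↔ l + 1 ≤ fa x p := by
  rw [← pow_dvd_iff_fa hp hx]
  have : (0 : ZMod (p ^ (l + 1))) = ((0 : ℤ) : ZMod (p ^ (l + 1))) := by simp
  unfold rs
  rw [this, Dt.cast_eq_iff, sub_zero]
  push_cast
  rfl

lemma rs_add (p l : ℕ) (x y : ℤ) : rs p l (x + y) = rs p l x + rs p l y := by
  unfold rs
  push_cast
  rfl

lemma rs_smul (p l : ℕ) (m x : ℤ) : rs p l (m * x) = m • rs p l x := by
  unfold rs
  push_cast
  rw [zsmul_eq_mul]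

section single

variable (m : ℤ) (p : ℕ) (U V : Finset ℤ)

/-- one level of the spine -/
lemma spine_step_m (hp : p.Prime) (h0 : (0 : ℤ) ∉ U) (hV : V.Nonempty) (l : ℕ) :
    (U.card : ℝ) * V.card * (hzm m U V (vl p (l + 1)) - hzm m U V (vl p l)) ≤
      ∑ _x ∈ ul p U l, ∑ y ∈ V, hm m (ul p U l) (vc p V l y) (rs p l) (rs p l) := by
  set S := U ×ˢ V with hS
  set z : ℤ × ℤ → ℤ := fun s => m * s.1 + s.2 with hzd
  have hne : ∀ x ∈ U, x ≠ 0 := fun x hx h => h0 (h ▸ hx)
  have e1 : hzm m U V (vl p (l + 1)) - hzm m U V (vl p l) =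
      ce S (fun s => (z s, vl p l s.1)) (fun s => vl p (l + 1) s.1) := by
    have h1 := ce_chain S z (fun s => vl p l s.1) (fun s => vl p (l + 1) s.1)
    have h2 : ce S z (fun s => (vl p l s.1, vl p (l + 1) s.1)) = ce S z
        (fun s => vl p (l + 1) s.1) := by
      refine le_antisymm ?_ ?_
      · refine ce_mono _ _ _ _ fun x _ y _ _ hxy => ?_
        have hxy' : min (fa x.1 p) (l + 1) = min (fa y.1 p) (l + 1) := hxy
        simp only [vl, Prod.mk.injEq]
        omega
      · refine ce_mono _ _ _ _ fun x _ y _ _ hxy => ?_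
        exact (Prod.mk.inj hxy).2
    rw [h2] at h1
    change ce S z (fun s => vl p (l + 1) s.1) - ce S z (fun s => vl p l s.1) = _
    linarith
  set r : ℤ × ℤ → ℕ × Finset ℤ := fun s => (vl p l s.1, if l ≤ fa s.1 p then vc p V l s.2 else ∅)
    with hr
  have e2 : ce S (fun s => (z s, vl p l s.1)) (fun s => vl p (l + 1) s.1) =
      ce S (fun s => (r s, z s)) (fun s => vl p (l + 1) s.1) := by
    refine ce_congr_left _ _ _ _ fun x hx y hy => ?_
    rw [Prod.mk.injEq, Prod.mk.injEq]
    constructor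
    · rintro ⟨h1, h2⟩
      refine ⟨?_, h1⟩
      simp only [hr, Prod.mk.injEq]
      refine ⟨h2, ?_⟩
      have h2' : min (fa x.1 p) l = min (fa y.1 p) l := h2
      have hxU := (mem_product.1 hx).1
      have hyU := (mem_product.1 hy).1
      by_cases h3 : l ≤ fa x.1 p
      · have h4 : l ≤ fa y.1 p := by omega
        rw [if_pos h3, if_pos h4]
        apply vc_eq_of_dvd
        have h5 := (pow_dvd_iff_fa hp (hne _ hxU) l).2 h3
        have h6 := (pow_dvd_iff_fa hp (hne _ hyU) l).2 h4
        have h7 : m * x.1 + x.2 = m * y.1 + y.2 := h1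
        have h8 : x.2 - y.2 = m * y.1 - m * x.1 := by linarith
        rw [h8]
        exact dvd_sub (Dvd.dvd.mul_left h6 m) (Dvd.dvd.mul_left h5 m)
      · have h4 : ¬ l ≤ fa y.1 p := by omega
        rw [if_neg h3, if_neg h4]
    · rintro ⟨h1, h2⟩
      exact ⟨h2, (Prod.mk.inj h1).1⟩
  have hSc : (S.card : ℝ) = U.card * V.card := by
    rw [hS, card_product]
    push_cast
    rfl
  rw [e1, e2, ← hSc, ce_avg]
  have e3 : ∀ s ∈ S, ce (cl S r s) z (fun s => vl p (l + 1) s.1) ≤
      if l ≤ fa s.1 p then hm m (ul p U l) (vc p V l s.2) (rs p l) (rs p l) else 0 := by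
    intro s hs
    obtain ⟨hsU, hsV⟩ := mem_product.1 hs
    split_ifs with h1
    · have e4 : cl S r s = ul p U l ×ˢ vc p V l s.2 := by
        ext t
        rw [mem_cl, hS, mem_product, mem_product, mem_vc]
        simp only [hr, Prod.mk.injEq, ul, mem_filter, vl]
        rw [if_pos h1]
        constructor
        · rintro ⟨⟨h2, h3⟩, h4, h5⟩
          have h6 : l ≤ fa t.1 p := by omega
          rw [if_pos h6] at h5
          exact ⟨⟨h2, h6⟩, h3, dvd_of_vc_eq h3 h5⟩
        · rintro ⟨⟨h2, h6⟩, h3, h5⟩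
          refine ⟨⟨h2, h3⟩, by omega, ?_⟩
          rw [if_pos h6]
          exact vc_eq_of_dvd h5
      rw [e4]
      have e5 : ce (ul p U l ×ˢ vc p V l s.2) z (fun s => vl p (l + 1) s.1) ≤
          ce (ul p U l ×ˢ vc p V l s.2) (fun s => m • rs p l s.1 + rs p l s.2)
            (fun s => vl p (l + 1) s.1) := by
        refine ce_anti _ _ _ _ fun x _ y _ hxy => ?_
        have hxy' : m * x.1 + x.2 = m * y.1 + y.2 := hxy
        rw [← rs_smul, ← rs_smul, ← rs_add, ← rs_add, hxy']
      refine e5.trans ?_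
      unfold hm
      refine ce_mono _ _ _ _ fun x hx y hy _ hxy => ?_
      have hx1 := (mem_filter.1 (mem_product.1 hx).1)
      have hy1 := (mem_filter.1 (mem_product.1 hy).1)
      have hxy' : (rs p l x.1 = 0 ↔ rs p l y.1 = 0) := decide_eq_decide.1 hxy
      rw [rs_zero hp (hne _ hx1.1), rs_zero hp (hne _ hy1.1)] at hxy'
      have hx2 := hx1.2
      have hy2 := hy1.2
      simp only [vl]
      omega
    · refine le_of_eq (ce_const _ _ _ fun x hx y hy _ => ?_)
      have hx1 := (mem_cl.1 hx).2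
      have hy1 := (mem_cl.1 hy).2
      simp only [hr, Prod.mk.injEq, vl] at hx1 hy1 ⊢
      omega
  refine (sum_le_sum e3).trans (le_of_eq ?_)
  rw [hS, sum_product]
  have e6 : ∀ x ∈ U, ∑ y ∈ V, (if l ≤ fa x p then hm m (ul p U l) (vc p V l y) (rs p l) (rs p l)
      else 0) =
      if l ≤ fa x p then ∑ y ∈ V, hm m (ul p U l) (vc p V l y) (rs p l) (rs p l) else 0 := by
    intro x _
    split_ifs
    · rfl
    · exact sum_const_zero
  rw [sum_congr rfl e6, ← sum_filter]
  rfl

end single

/-- the bound for one level -/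
def LevB (δ : ℝ) (Q : Finset ℤ) (p : ℕ) (c : ℝ) : Prop :=
  ∀ (l : ℕ) (U V : Finset ℤ), U.Nonempty → V.Nonempty →
    ∑ m ∈ Q, hm m U V (rs p l) (rs p l) ≤ Q.card * (δ * h U (isz (rs p l)) +
      4 * δ * (1 - (nz U (rs p l) : ℝ) / U.card) * h V (rs p l) +
      c * ((nz U (rs p l) : ℝ) / U.card)) + h U (isz (rs p l))

section spine

variable {Q : Finset ℤ} {δ : ℝ} {p : ℕ} {cp : ℝ} (U V : Finset ℤ)

/-- the contribution of one level -/
lemma level_m (hp : p.Prime) (h0 : (0 : ℤ) ∉ U) (hV : V.Nonempty)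
    (hB : LevB δ Q p cp) (l : ℕ) :
    ∑ m ∈ Q, ∑ _x ∈ ul p U l, ∑ y ∈ V, hm m (ul p U l) (vc p V l y) (rs p l) (rs p l) ≤
      Q.card * (δ * V.card * ((ul p U l).card * h (ul p U l) (fun x => decide (l + 1 ≤ fa x p))) +
      4 * δ * (ul p U (l + 1)).card * wl p V l +
      cp * V.card * ((ul p U l).card - (ul p U (l + 1)).card)) +
      V.card * ((ul p U l).card * h (ul p U l) (fun x => decide (l + 1 ≤ fa x p))) := by
  have hVc : (0 : ℝ) < V.card := by exact_mod_cast card_pos.2 hV
  have hwl : ∑ y ∈ V, h (vc p V l y) (rs p l) = wl p V l := sum_h_vc p V l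
  rcases (ul p U l).eq_empty_or_nonempty with hE | hN
  · have hE2 : ul p U (l + 1) = ∅ := by
      rw [← subset_empty, ← hE]
      intro x hx
      simp only [ul, mem_filter] at hx ⊢
      exact ⟨hx.1, by omega⟩
    rw [hE, hE2]
    simp
  have hn0 : (0 : ℝ) < (ul p U l).card := by exact_mod_cast card_pos.2 hN
  set n : ℝ := ((ul p U l).card : ℝ) with hn
  set n' : ℝ := ((ul p U (l + 1)).card : ℝ) with hn'
  have hne : ∀ x ∈ U, x ≠ 0 := fun x hx h => h0 (h ▸ hx)
  have h7 : ∀ w ∈ U, rs p l w = 0 ↔ l + 1 ≤ fa w p := fun w hw => rs_zero hp (hne w hw)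
  have hdec : h (ul p U l) (isz (rs p l)) =
      h (ul p U l) (fun x => decide (l + 1 ≤ fa x p)) := by
    refine h_congr fun x hx y hy => ?_
    have hx1 := (mem_filter.1 hx).1
    have hy1 := (mem_filter.1 hy).1
    rw [isz_eq, decide_eq_decide, h7 x hx1, h7 y hy1]
  set η := h (ul p U l) (fun x => decide (l + 1 ≤ fa x p)) with hη
  have hnz : (nz (ul p U l) (rs p l) : ℝ) = n - n' := by
    have h1 : nz (ul p U l) (rs p l) + (ul p U (l + 1)).card = (ul p U l).card := by
      have h2 := card_filter_add_card_filter_not (s := ul p U l) (fun x => rs p l x ≠ 0)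
      have h3 : nz (ul p U l) (rs p l) = ((ul p U l).filter fun x => rs p l x ≠ 0).card :=
        nz_eq _ _ _ fun x => mem_filter
      have h4 : (ul p U (l + 1)).card = ((ul p U l).filter fun x => ¬ rs p l x ≠ 0).card := by
        congr 1
        ext x
        simp only [ul, mem_filter, not_not]
        constructor
        · rintro ⟨h2, h3⟩
          exact ⟨⟨h2, by omega⟩, (h7 x h2).2 h3⟩
        · rintro ⟨⟨h2, _⟩, h3⟩
          exact ⟨h2, (h7 x h2).1 h3⟩
      rw [h3, h4]
      exact h2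
    have h2 : (nz (ul p U l) (rs p l) : ℝ) + n' = n := by
      rw [hn, hn']
      exact_mod_cast h1
    linarith
  have hpt : ∀ y ∈ V, n * ∑ m ∈ Q, hm m (ul p U l) (vc p V l y) (rs p l) (rs p l) ≤
      Q.card * (δ * (n * η) + 4 * δ * n' * h (vc p V l y) (rs p l) + cp * (n - n')) + n * η := by
    intro y hy
    have hVn : (vc p V l y).Nonempty := ⟨y, self_mem_vc hy⟩
    have b1 := hB l (ul p U l) (vc p V l y) hN hVn
    rw [hdec, hnz, ← hn] at b1
    have b2 := mul_le_mul_of_nonneg_left b1 hn0.le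
    refine b2.trans (le_of_eq ?_)
    have b3 : 1 - (n - n') / n = n' / n := by
      field_simp
      ring
    rw [b3]
    field_simp
  have hsw : ∑ m ∈ Q, ∑ _x ∈ ul p U l, ∑ y ∈ V, hm m (ul p U l) (vc p V l y) (rs p l) (rs p l) =
      ∑ y ∈ V, n * ∑ m ∈ Q, hm m (ul p U l) (vc p V l y) (rs p l) (rs p l) := by
    simp only [sum_const, nsmul_eq_mul]
    rw [← mul_sum, ← mul_sum, sum_comm]
  rw [hsw]
  refine (sum_le_sum hpt).trans (le_of_eq ?_)
  rw [sum_add_distrib, ← mul_sum, sum_add_distrib, sum_add_distrib, sum_const, sum_const,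
    sum_const, nsmul_eq_mul, nsmul_eq_mul, nsmul_eq_mul, ← mul_sum, hwl]
  ring

/-- **The spine lemma** for one prime. -/
theorem spine_m (hp : p.Prime) (h0 : (0 : ℤ) ∉ U) (hU : U.Nonempty) (hV : V.Nonempty)
    (hcp : 0 ≤ cp) (hB : LevB δ Q p cp) :
    (U.card : ℝ) * V.card * ∑ m ∈ Q, hzm m U V (fun x => fa x p) ≤
      Q.card * (U.card * V.card * (δ * h U (fun x => fa x p) + 4 * δ * Real.log V.card + cp) -
      4 * δ * ∑ x ∈ U, ∑ y ∈ V, Real.log (vc p V (fa x p) y).card) +
      U.card * V.card * h U (fun x => fa x p) := by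
  have hUc : (0 : ℝ) < U.card := by exact_mod_cast card_pos.2 hU
  have hVc : (0 : ℝ) < V.card := by exact_mod_cast card_pos.2 hV
  set M := ∑ x ∈ U, fa x p with hM
  have hMx : ∀ x ∈ U, fa x p ≤ M := fun x hx =>
    single_le_sum (f := fun x => fa x p) (fun _ _ => Nat.zero_le _) hx
  have tele : ∀ N : ℕ, (U.card : ℝ) * V.card * ∑ m ∈ Q, hzm m U V (vl p N) ≤
      Q.card * (δ * V.card * (U.card * h U (vl p N)) +
      4 * δ * (∑ x ∈ U, ∑ y ∈ V, (Real.log V.card - Real.log (vc p V (min (fa x p) N) y).card)) +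
      cp * V.card * (U.card - (ul p U N).card)) + V.card * (U.card * h U (vl p N)) := by
    intro N
    induction N with
    | zero =>
      have h1 : ∀ m ∈ Q, hzm m U V (vl p 0) = 0 := by
        intro m _
        unfold hzm
        refine ce_const _ _ _ fun x _ y _ _ => ?_
        simp [vl]
      have h2 : h U (vl p 0) = 0 := h_const _ _ fun x _ y _ => by simp [vl]
      have h3 : ul p U 0 = U := by
        unfold ul
        exact filter_true_of_mem fun _ _ => Nat.zero_le _
      rw [sum_congr rfl h1, h2, h3]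
      simp [vc_zero]
    | succ N ih =>
      have h1 : (U.card : ℝ) * V.card * ∑ m ∈ Q, hzm m U V (vl p (N + 1)) -
          U.card * V.card * ∑ m ∈ Q, hzm m U V (vl p N) ≤
          ∑ m ∈ Q, ∑ _x ∈ ul p U N, ∑ y ∈ V, hm m (ul p U N) (vc p V N y) (rs p N) (rs p N) := by
        rw [← mul_sub, ← sum_sub_distrib, mul_sum]
        exact sum_le_sum fun m _ => spine_step_m m p U V hp h0 hV N
      have h2 := level_m U V hp h0 hV hB N
      rw [bit_sum p U N hU] at h2
      have h3 : ∑ x ∈ U, ∑ y ∈ V, (Real.log V.card -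
          Real.log (vc p V (min (fa x p) (N + 1)) y).card) =
          (∑ x ∈ U, ∑ y ∈ V, (Real.log V.card - Real.log (vc p V (min (fa x p) N) y).card)) +
          (ul p U (N + 1)).card * wl p V N := by
        have h4 : ∀ x ∈ U, ∑ y ∈ V, (Real.log V.card -
          Real.log (vc p V (min (fa x p) (N + 1)) y).card) =
          (∑ y ∈ V, (Real.log V.card - Real.log (vc p V (min (fa x p) N) y).card)) +
          if N + 1 ≤ fa x p then wl p V N else 0 := by
          intro x _
          split_ifs with h5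
          · rw [min_eq_right h5, min_eq_right (by omega : N ≤ fa x p)]
            unfold wl
            rw [← sum_add_distrib]
            refine sum_congr rfl fun y _ => ?_
            ring
          · have : min (fa x p) (N + 1) = min (fa x p) N := by omega
            rw [this, add_zero]
        rw [sum_congr rfl h4, sum_add_distrib, ← sum_filter, sum_const, nsmul_eq_mul]
        rfl
      rw [h3]
      linarith
  have h1 := tele M
  have h2 : ∀ m ∈ Q, hzm m U V (vl p M) = hzm m U V (fun x => fa x p) := by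
    intro m _
    unfold hzm
    refine le_antisymm ?_ ?_
    · refine ce_mono _ _ _ _ fun x hx y hy _ hxy => ?_
      have hxy' : fa x.1 p = fa y.1 p := hxy
      simp only [vl, hxy']
    · refine ce_mono _ _ _ _ fun x hx y hy _ hxy => ?_
      have h3 := hMx _ (mem_product.1 hx).1
      have h4 := hMx _ (mem_product.1 hy).1
      have hxy' : min (fa x.1 p) M = min (fa y.1 p) M := hxy
      rw [min_eq_left h3, min_eq_left h4] at hxy'
      exact hxy'
  have h3 : h U (vl p M) = h U (fun x => fa x p) := h_congr fun x hx y hy => by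
    simp only [vl]
    rw [min_eq_left (hMx x hx), min_eq_left (hMx y hy)]
  have h4 : ∑ x ∈ U, ∑ y ∈ V, (Real.log V.card - Real.log (vc p V (min (fa x p) M) y).card) =
      U.card * V.card * Real.log V.card -
        ∑ x ∈ U, ∑ y ∈ V, Real.log (vc p V (fa x p) y).card := by
    rw [sum_congr rfl fun x hx => by rw [min_eq_left (hMx x hx)]]
    simp only [sum_sub_distrib, sum_const, nsmul_eq_mul]
    ring
  rw [sum_congr rfl h2, h3, h4] at h1
  have h5 : 0 ≤ (Q.card : ℝ) * (cp * V.card * (ul p U M).card) := by positivity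
  linarith

end spine

/-- the costs of the primes of a list -/
noncomputable def cs (c : ℕ → ℝ) (L : List ℕ) : ℝ := (L.map c).sum

/-- **The exponents of several primes.** -/
theorem spine_list_m {δ : ℝ} (hδ : 0 < δ) (Q : Finset ℤ) (c : ℕ → ℝ) :
    ∀ (L : List ℕ) (U V : Finset ℤ), (∀ p ∈ L, p.Prime ∧ 0 ≤ c p ∧ LevB δ Q p (c p)) →
      (0 : ℤ) ∉ U → U.Nonempty → V.Nonempty →
      ∑ m ∈ Q, hzm m U V (fL L) ≤ Q.card * (4 * δ * (h U (fL L) + Real.log V.card) + cs c L) +
        h U (fL L) := by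
  intro L
  induction L with
  | nil =>
    intro U V _ _ _ _
    have h1 : ∀ m ∈ Q, hzm m U V (fL []) = 0 := by
      intro m _
      unfold hzm
      exact ce_const _ _ _ fun x _ y _ _ => rfl
    rw [sum_congr rfl h1, sum_const_zero]
    have h2 := h_nonneg U (fL [])
    have h3 := log_card_nonneg V
    have h4 : cs c [] = 0 := rfl
    rw [h4, add_zero]
    positivity
  | cons p L ih =>
    intro U V hp h0 hU hV
    have hUc : (0 : ℝ) < U.card := by exact_mod_cast card_pos.2 hU
    have hVc : (0 : ℝ) < V.card := by exact_mod_cast card_pos.2 hV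
    obtain ⟨hpp, hcp, hB⟩ := hp p List.mem_cons_self
    have hne : ∀ x ∈ U, x ≠ 0 := fun x hx h => h0 (h ▸ hx)
    set S := U ×ˢ V with hS
    set v : ℤ → ℕ := fun x => fa x p with hv
    have hSc : (S.card : ℝ) = U.card * V.card := by
      rw [hS, card_product]
      push_cast
      rfl
    set r : ℤ × ℤ → ℕ × Finset ℤ := fun s => (v s.1, vc p V (v s.1) s.2) with hr
    have e1 : ∀ m ∈ Q, (S.card : ℝ) * hzm m U V (fL (p :: L)) =
        (S.card : ℝ) * hzm m U V v + ∑ s ∈ S, hzm m (cl U v s.1) (vc p V (v s.1) s.2) (fL L) := by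
      intro m _
      set z : ℤ × ℤ → ℤ := fun s => m * s.1 + s.2 with hzd
      have e1 : hzm m U V (fL (p :: L)) = ce S z (fun s => v s.1) +
          ce S (fun s => (z s, v s.1)) (fun s => fL L s.1) := by
        rw [← ce_chain]
        unfold hzm
        refine le_antisymm ?_ ?_
        · refine ce_mono _ _ _ _ fun x _ y _ _ hxy => ?_
          have := Prod.mk.inj hxy
          show v x.1 :: fL L x.1 = v y.1 :: fL L y.1
          rw [this.1, this.2]
        · refine ce_mono _ _ _ _ fun x _ y _ _ hxy => ?_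
          have hxy' : v x.1 :: fL L x.1 = v y.1 :: fL L y.1 := hxy
          rw [List.cons.injEq] at hxy'
          exact Prod.ext hxy'.1 hxy'.2
      have e2 : ce S (fun s => (z s, v s.1)) (fun s => fL L s.1) =
          ce S (fun s => (r s, z s)) (fun s => fL L s.1) := by
        refine ce_congr_left _ _ _ _ fun x hx y hy => ?_
        rw [Prod.mk.injEq, Prod.mk.injEq]
        constructor
        · rintro ⟨h1, h2⟩
          refine ⟨?_, h1⟩
          simp only [hr, Prod.mk.injEq]
          refine ⟨h2, ?_⟩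
          rw [h2]
          apply vc_eq_of_dvd
          have hxU := (mem_product.1 hx).1
          have hyU := (mem_product.1 hy).1
          have h5 := (pow_dvd_iff_fa hpp (hne _ hxU) (v y.1)).2 (le_of_eq h2.symm)
          have h6 := (pow_dvd_iff_fa hpp (hne _ hyU) (v y.1)).2 le_rfl
          have h7 : m * x.1 + x.2 = m * y.1 + y.2 := h1
          have h8 : x.2 - y.2 = m * y.1 - m * x.1 := by linarith
          rw [h8]
          exact dvd_sub (Dvd.dvd.mul_left h6 m) (Dvd.dvd.mul_left h5 m)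
        · rintro ⟨h1, h2⟩
          exact ⟨h2, (Prod.mk.inj h1).1⟩
      have e3 := ce_avg S r z (fun s => fL L s.1)
      have e4 : ∀ s ∈ S, ce (cl S r s) z (fun s => fL L s.1) =
          hzm m (cl U v s.1) (vc p V (v s.1) s.2) (fL L) := by
        intro s hs
        have : cl S r s = cl U v s.1 ×ˢ vc p V (v s.1) s.2 := by
          ext t
          rw [mem_cl, hS, mem_product, mem_product, mem_vc, mem_cl]
          simp only [hr, Prod.mk.injEq]
          constructor
          · rintro ⟨⟨h1, h2⟩, h3, h4⟩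
            rw [h3] at h4
            exact ⟨⟨h1, h3⟩, h2, dvd_of_vc_eq h2 h4⟩
          · rintro ⟨⟨h1, h3⟩, h2, h4⟩
            refine ⟨⟨h1, h2⟩, h3, ?_⟩
            rw [h3]
            exact vc_eq_of_dvd h4
        rw [this]
        rfl
      rw [e1, e2, mul_add, e3, sum_congr rfl e4]
      rfl
    have e5 : ∀ s ∈ S, ∑ m ∈ Q, hzm m (cl U v s.1) (vc p V (v s.1) s.2) (fL L) ≤
        Q.card * (4 * δ * (h (cl U v s.1) (fL L) + Real.log (vc p V (v s.1) s.2).card) + cs c L) +
          h (cl U v s.1) (fL L) := by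
      intro s hs
      obtain ⟨hsU, hsV⟩ := mem_product.1 hs
      exact ih _ _ (fun q hq => hp q (List.mem_cons_of_mem _ hq))
        (fun h => h0 (mem_cl.1 h).1) ⟨s.1, mem_cl.2 ⟨hsU, rfl⟩⟩ ⟨s.2, self_mem_vc hsV⟩
    have e6 := sum_le_sum e5
    have e7 : ∑ s ∈ S, ((Q.card : ℝ) * (4 * δ * (h (cl U v s.1) (fL L) +
        Real.log (vc p V (v s.1) s.2).card) + cs c L) + h (cl U v s.1) (fL L)) =
        Q.card * (4 * δ * (V.card * ∑ x ∈ U, h (cl U v x) (fL L) +
          ∑ x ∈ U, ∑ y ∈ V, Real.log (vc p V (v x) y).card) + U.card * V.card * cs c L) +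
          V.card * ∑ x ∈ U, h (cl U v x) (fL L) := by
      rw [sum_add_distrib, ← mul_sum, sum_add_distrib, ← mul_sum, sum_const, nsmul_eq_mul, hSc, hS,
        sum_product, sum_product]
      simp only [sum_add_distrib, sum_const, nsmul_eq_mul, ← mul_sum]
    have e8 := chain U v (fL L)
    have e9 : ∑ x ∈ U, h (cl U v x) (fL L) = U.card * (h U (fun x => (v x, fL L x)) - h U v) := by
      rw [e8, mul_div_cancel₀ _ hUc.ne']
    have e10 : h U (fun x => (v x, fL L x)) = h U (fL (p :: L)) := h_congr fun x _ y _ => by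
      rw [Prod.mk.injEq]
      show _ ↔ v x :: fL L x = v y :: fL L y
      rw [List.cons.injEq]
    have e11 : (S.card : ℝ) * ∑ m ∈ Q, hzm m U V (fL (p :: L)) =
        S.card * ∑ m ∈ Q, hzm m U V v +
        ∑ s ∈ S, ∑ m ∈ Q, hzm m (cl U v s.1) (vc p V (v s.1) s.2) (fL L) := by
      rw [mul_sum, mul_sum, sum_congr rfl e1, sum_add_distrib, sum_comm (s := Q) (t := S)]
    rw [e7, e9, e10] at e6
    have e12 := spine_m U V hpp h0 hU hV hcp hB
    change (U.card : ℝ) * V.card * ∑ m ∈ Q, hzm m U V v ≤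
      Q.card * (U.card * V.card * (δ * h U v + 4 * δ * Real.log V.card + c p) -
      4 * δ * ∑ x ∈ U, ∑ y ∈ V, Real.log (vc p V (v x) y).card) +
      U.card * V.card * h U v at e12
    have h1 := h_nonneg U v
    have h2' : 0 ≤ 3 * δ * h U v := mul_nonneg (by linarith) h1
    have h2 : 0 ≤ (Q.card : ℝ) * (U.card * V.card * (3 * δ * h U v)) :=
      mul_nonneg (Nat.cast_nonneg _) (mul_nonneg (mul_pos hUc hVc).le h2')
    have e13 : cs c (p :: L) = c p + cs c L := rfl
    have e14 : (U.card : ℝ) * V.card * ∑ m ∈ Q, hzm m U V (fL (p :: L)) ≤ U.card * V.card *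
        (Q.card * (4 * δ * (h U (fL (p :: L)) + Real.log V.card) + cs c (p :: L)) +
        h U (fL (p :: L))) := by
      rw [← hSc, e11, hSc, e13]
      linarith
    exact le_of_mul_le_mul_left e14 (mul_pos hUc hVc)

end Pool.Agent.T2H12.KD
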