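import Mathlib
import Pool.Agent.T2H12.KD.Lam3

/-!
# A bounded set of multipliers which works for all primes
-/

set_option autoImplicit false

namespace Pool.Agent.T2H12.KD

open Finset
open scoped Classical
open Pool.Agent.Y359.PE Pool.Agent.T2H12.KF

/-- the multipliers -/
def qK (K : ℕ) : Finset ℤ := (range K).image fun j : ℕ => 1 + (j : ℤ) * ((K - 1).factorial : ℕ)

lemma mem_qK {K : ℕ} {m : ℤ} : m ∈ qK K ↔ ∃ j : ℕ, j < K ∧ 1 + (j : ℤ) * ((K - 1).factorial : ℕ) = m := by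
  unfold qK
  simp [mem_image]

lemma card_qK (K : ℕ) : (qK K).card = K := by
  unfold qK
  rw [card_image_of_injective, card_range]
  intro i j hij
  have h1 : (i : ℤ) * ((K - 1).factorial : ℕ) = j * ((K - 1).factorial : ℕ) := by
    have : 1 + (i : ℤ) * ((K - 1).factorial : ℕ) = 1 + (j : ℤ) * ((K - 1).factorial : ℕ) := hij
    linarith
  have h2 : (((K - 1).factorial : ℕ) : ℤ) ≠ 0 := by
    exact_mod_cast Nat.factorial_ne_zero _
  have h3 := mul_right_cancel₀ h2 h1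
  exact_mod_cast h3

lemma rs_eq_zero (p l : ℕ) (x : ℤ) : rs p l x = 0 ↔ (p : ℤ) ^ (l + 1) ∣ x := by
  have : (0 : ZMod (p ^ (l + 1))) = ((0 : ℤ) : ZMod (p ^ (l + 1))) := by simp
  unfold rs
  rw [this, Dt.cast_eq_iff, sub_zero]
  push_cast
  rfl

lemma good_mult {p : ℕ} (hp : p.Prime) {m : ℤ} (hm : ¬ (p : ℤ) ∣ m) (l : ℕ) (x : ℤ) :
    m • rs p l x = 0 ↔ rs p l x = 0 := by
  rw [← rs_smul, rs_eq_zero, rs_eq_zero]
  have hc : IsCoprime ((p : ℤ) ^ (l + 1)) m := by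
    refine IsCoprime.pow_left ?_
    exact (Prime.coprime_iff_not_dvd (Nat.prime_iff_prime_int.1 hp)).2 hm
  exact ⟨fun h => hc.dvd_of_dvd_mul_left h, fun h => Dvd.dvd.mul_left h m⟩

lemma qK_inj {K p : ℕ} (hp : p.Prime) (hK : K ≤ p) {m m' : ℤ} (hm : m ∈ qK K) (hm' : m' ∈ qK K)
    (h : (p : ℤ) ∣ m - m') : m = m' := by
  obtain ⟨j, hj, rfl⟩ := mem_qK.1 hm
  obtain ⟨j', hj', rfl⟩ := mem_qK.1 hm'
  have hpi := Nat.prime_iff_prime_int.1 hp
  have h1 : (p : ℤ) ∣ ((j : ℤ) - j') * ((K - 1).factorial : ℕ) := by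
    have : ((j : ℤ) - j') * ((K - 1).factorial : ℕ) = 1 + (j : ℤ) * ((K - 1).factorial : ℕ) -
      (1 + (j' : ℤ) * ((K - 1).factorial : ℕ)) := by ring
    rw [this]
    exact h
  rcases hpi.dvd_or_dvd h1 with h2 | h2
  · have h3 : (j : ℤ) - j' = 0 := by
      refine Int.eq_zero_of_abs_lt_dvd h2 ?_
      rw [abs_lt]
      constructor <;> omega
    have h4 : (j : ℤ) = j' := by linarith
    rw [h4]
  · exfalso
    have h3 : p ∣ (K - 1).factorial := by exact_mod_cast h2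
    rw [hp.dvd_factorial] at h3
    omega

lemma qK_small {K p : ℕ} (hp : p.Prime) (hK : p < K) {m : ℤ} (hm : m ∈ qK K) :
    ¬ (p : ℤ) ∣ m := by
  obtain ⟨j, _, rfl⟩ := mem_qK.1 hm
  intro h
  have h1 : (p : ℤ) ∣ ((K - 1).factorial : ℕ) := by
    have : p ∣ (K - 1).factorial := hp.dvd_factorial.2 (by omega)
    exact_mod_cast this
  have h2 : (p : ℤ) ∣ (j : ℤ) * ((K - 1).factorial : ℕ) := Dvd.dvd.mul_left h1 _
  have h3 : (p : ℤ) ∣ 1 := (dvd_add_left h2).1 h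
  exact (Nat.prime_iff_prime_int.1 hp).not_dvd_one h3

lemma levB_small {δ C : ℝ} (hδ : 0 < δ) (hδ1 : δ ≤ 1) (hC : 2 ≤ C) (hB : BitG δ C) {K p : ℕ}
    (hp : p.Prime) (hK : p < K) :
    LevB δ (qK K) p (2 * Real.log 2 + 1 + Real.log (C / δ)) := by
  intro l U V hU hV
  have h1 : ∀ m ∈ qK K, hm m U V (rs p l) (rs p l) ≤ δ * h U (isz (rs p l)) +
      4 * δ * (1 - (nz U (rs p l) : ℝ) / U.card) * h V (rs p l) +
      (2 * Real.log 2 + 1 + Real.log (C / δ)) * ((nz U (rs p l) : ℝ) / U.card) :=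
    fun m hm => small_level hδ hδ1 hC hB m U V hU hV (rs p l) (rs p l)
      fun x _ => good_mult hp (qK_small hp hK hm) l x
  have h2 := sum_le_sum h1
  rw [sum_const, nsmul_eq_mul] at h2
  have h3 := h_nonneg U (isz (rs p l))
  linarith

lemma levB_large {δ C δ₁ : ℝ} (hδ : 0 < δ) (hδ1 : δ ≤ 1) (hC : 2 ≤ C) (hB : BitG δ C)
    (hδ₁ : 0 < δ₁) : ∃ K₀ : ℝ, 0 < K₀ ∧ ∀ K p : ℕ, K₀ ≤ K → p.Prime → K ≤ p →
      LevB δ (qK K) p δ₁ := by
  obtain ⟨K₀, hK₀, h⟩ := large_level hδ hδ1 hC hB hδ₁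
  refine ⟨K₀, hK₀, ?_⟩
  intro K p hK hp hKp l U V hU hV
  have hQ₀ : ((qK K).filter fun m => (p : ℤ) ∣ m).card ≤ 1 := by
    rw [card_le_one]
    intro m hm m' hm'
    obtain ⟨h1, h2⟩ := mem_filter.1 hm
    obtain ⟨h3, h4⟩ := mem_filter.1 hm'
    exact qK_inj hp hKp h1 h3 (dvd_sub h2 h4)
  refine h ℤ ℤ _ U V (rs p l) (rs p l) (qK K) ((qK K).filter fun m => (p : ℤ) ∣ m) hU hV
    (filter_subset _ _) hQ₀ ?_ ?_ (by rw [card_qK]; exact hK)
  · intro m hm hm0 x _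
    refine good_mult hp (fun hd => hm0 (mem_filter.2 ⟨hm, hd⟩)) l x
  · intro x _ hx m hm m' hm' he
    refine qK_inj hp hKp hm hm' ?_
    by_contra hnd
    have h1 : (m - m') • rs p l x = 0 := by rw [sub_smul, he, sub_self]
    exact hx ((good_mult hp hnd l x).1 h1)

/-- the costs of the list -/
lemma cs_le {K : ℕ} {L₀ δ₁ : ℝ} (hL₀ : 0 ≤ L₀) (hδ₁ : 0 ≤ δ₁) (L : List ℕ) (hL : L.Nodup) :
    cs (fun p => if p < K then L₀ else δ₁) L ≤ δ₁ * L.length + K * L₀ := by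
  have h1 : cs (fun p => if p < K then L₀ else δ₁) L = ∑ p ∈ L.toFinset, if p < K then L₀ else δ₁ := by
    unfold cs
    rw [List.sum_toFinset _ hL]
  rw [h1]
  have h2 : ∀ p ∈ L.toFinset, (if p < K then L₀ else δ₁) ≤ δ₁ + if p < K then L₀ else 0 := by
    intro p _
    split_ifs <;> linarith
  refine (sum_le_sum h2).trans ?_
  rw [sum_add_distrib, sum_const, nsmul_eq_mul, ← sum_filter, sum_const, nsmul_eq_mul,
    List.toFinset_card_of_nodup hL]
  have h3 : ((L.toFinset.filter fun p => p < K).card : ℝ) ≤ K := by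
    have h4 : (L.toFinset.filter fun p => p < K) ⊆ range K := fun p hp =>
      mem_range.2 (mem_filter.1 hp).2
    have h5 := card_le_card h4
    rw [card_range] at h5
    exact_mod_cast h5
  have h4 := mul_le_mul_of_nonneg_right h3 hL₀
  linarith

/-- **A good multiplier.** -/
theorem exists_mult {δ δ₁ : ℝ} (hδ : 0 < δ) (hδ1 : δ ≤ 1) (hδ₁ : 0 < δ₁) :
    ∃ (K' : ℕ) (B : ℝ), 0 ≤ B ∧ ∀ (L : List ℕ) (U V : Finset ℤ), L.Nodup →
      (∀ p ∈ L, p.Prime) → (0 : ℤ) ∉ U → U.Nonempty → V.Nonempty →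
      ∃ m : ℕ, 1 ≤ m ∧ m ≤ K' ∧
        hzm (m : ℤ) U V (fL L) ≤ 5 * δ * (h U (fL L) + Real.log V.card) + δ₁ * L.length + B := by
  obtain ⟨C, hC, hB⟩ := exists_bitG hδ hδ1
  obtain ⟨K₀, hK₀, hlarge⟩ := levB_large hδ hδ1 hC hB hδ₁
  obtain ⟨K, hK⟩ := exists_nat_ge (max K₀ (1 / δ))
  have hK1 : K₀ ≤ K := (le_max_left _ _).trans hK
  have hK2 : 1 / δ ≤ K := (le_max_right _ _).trans hK
  have hKp : (0 : ℝ) < K := hK₀.trans_le hK1
  set L₀ : ℝ := 2 * Real.log 2 + 1 + Real.log (C / δ) with hL₀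
  have hl2 : 0 < Real.log 2 := Real.log_pos (by norm_num)
  have hL₀0 : 0 ≤ L₀ := by
    have : 0 ≤ Real.log (C / δ) := Real.log_nonneg (by
      rw [le_div_iff₀ hδ]
      linarith)
    positivity
  refine ⟨1 + K * (K - 1).factorial, K * L₀, by positivity, ?_⟩
  intro L U V hnd hL h0 hU hV
  have h1 := spine_list_m hδ (qK K) (fun p => if p < K then L₀ else δ₁) L U V (by
    intro p hp
    refine ⟨hL p hp, ?_, ?_⟩
    · split_ifs
      · exact hL₀0
      · exact hδ₁.le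
    · split_ifs with h
      · exact levB_small hδ hδ1 hC hB (hL p hp) h
      · exact hlarge K p hK1 (hL p hp) (not_lt.1 h)) h0 hU hV
  rw [card_qK] at h1
  have h2 := cs_le (K := K) hL₀0 hδ₁.le L hnd
  have h3 := h_nonneg U (fL L)
  have h4 : h U (fL L) ≤ K * (δ * h U (fL L)) := by
    have : 1 ≤ δ * K := by
      rw [div_le_iff₀ hδ] at hK2
      linarith
    nlinarith
  have hlv := log_card_nonneg V
  have h5 : ∑ m ∈ qK K, hzm m U V (fL L) ≤ ∑ _m ∈ qK K,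
      (5 * δ * (h U (fL L) + Real.log V.card) + δ₁ * L.length + K * L₀) := by
    rw [sum_const, nsmul_eq_mul, card_qK]
    refine h1.trans ?_
    have h6 := mul_le_mul_of_nonneg_left h2 hKp.le
    have h7 : 0 ≤ (K : ℝ) * (δ * Real.log V.card) := by positivity
    linarith
  have hne : (qK K).Nonempty := by
    rw [← card_pos, card_qK]
    exact_mod_cast hKp
  obtain ⟨m, hm, hle⟩ := exists_le_of_sum_le hne h5
  obtain ⟨j, hj, rfl⟩ := mem_qK.1 hm
  refine ⟨1 + j * (K - 1).factorial, by omega, ?_, ?_⟩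
  · have := Nat.mul_le_mul_right (K - 1).factorial hj.le
    omega
  · push_cast
    exact hle

end Pool.Agent.T2H12.KD
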