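import Mathlib
import Pool.Agent.T2H12.KD.Lam4
import Pool.Agent.T2H12.KD.Lab2
import Pool.Agent.T2H12.KF.Core

/-!
# One exponent for the products and the sums of dilates
-/

set_option autoImplicit false

namespace Pool.Agent.T2H12.KD

open Finset
open scoped Classical
open Pool.Agent.Y359.PE Pool.Agent.T2H12.KF

/-- few primes with most of the entropy of the exponents -/
lemma exists_basis (A : Finset ℤ) (τ₀ : ℝ) : ∃ P ⊆ pr A,
    τ₀ * P.card ≤ h A (wp P) ∧ ∀ q ∈ pr A \ P, ce A (wp P) (fun a => fa a q) ≤ τ₀ := by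
  obtain ⟨P, hP, hmax⟩ := exists_max_image (pr A).powerset
    (fun P => h A (wp P) - τ₀ * P.card) ⟨∅, empty_mem_powerset _⟩
  refine ⟨P, mem_powerset.1 hP, ?_, ?_⟩
  · have h1 := hmax ∅ (empty_mem_powerset _)
    have h2 := h_nonneg A (wp ∅)
    simp only [card_empty, Nat.cast_zero, mul_zero, sub_zero] at h1
    linarith
  · intro q hq
    obtain ⟨hq1, hq2⟩ := mem_sdiff.1 hq
    have h1 := hmax (insert q P) (mem_powerset.2 (insert_subset hq1 (mem_powerset.1 hP)))
    rw [card_insert_of_notMem hq2] at h1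
    push_cast at h1
    have h2 : h A (fun a => (wp P a, fa a q)) = h A (wp (insert q P)) := by
      refine h_congr fun x _ y _ => ?_
      rw [Prod.mk.injEq, wp_eq_iff, wp_eq_iff]
      constructor
      · rintro ⟨h3, h4⟩ p hp
        rcases mem_insert.1 hp with rfl | h5
        · exact h4
        · exact h3 p h5
      · intro h3
        exact ⟨fun p hp => h3 p (mem_insert_of_mem hp), h3 q (mem_insert_self _ _)⟩
    unfold ce
    rw [h2]
    linarith

/-- the sum with a multiplier -/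
lemma sum_step {β : Type*} (m : ℤ) (U V : Finset ℤ) (hU : U.Nonempty) (hV : V.Nonempty)
    (f : ℤ → β) : Real.log V.card + h U f - hzm m U V f ≤
      Real.log ((U ×ˢ V).image fun s => m * s.1 + s.2).card := by
  have hUc : (0 : ℝ) < U.card := by exact_mod_cast card_pos.2 hU
  have hVc : (0 : ℝ) < V.card := by exact_mod_cast card_pos.2 hV
  refine le_trans ?_ (h_le_log' (hU.product hV) (fun s : ℤ × ℤ => m * s.1 + s.2))
  have h1 : ce (U ×ˢ V) (fun s => s.1) (fun s => m * s.1 + s.2) ≤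
      ce (U ×ˢ V) (fun s => f s.1) (fun s => m * s.1 + s.2) :=
    ce_anti _ _ _ _ fun x _ y _ hxy => congrArg f hxy
  have h2 : ce (U ×ˢ V) (fun s => s.1) (fun s => m * s.1 + s.2) = Real.log V.card := by
    unfold ce
    rw [h_fst U V hU hV (fun x => x), h_inj U (fun x => x) (fun _ _ _ _ h => h),
      h_inj (U ×ˢ V) _ (by
        intro x _ y _ hxy
        obtain ⟨h3, h4⟩ := Prod.mk.inj hxy
        have h3' : x.1 = y.1 := h3
        have h4' : m * x.1 + x.2 = m * y.1 + y.2 := h4
        refine Prod.ext h3' ?_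
        rw [h3'] at h4'
        linarith), card_product]
    push_cast
    rw [Real.log_mul hUc.ne' hVc.ne']
    ring
  have h3 : h (U ×ˢ V) (fun s => (m * s.1 + s.2, f s.1)) =
      h (U ×ˢ V) (fun s => (f s.1, m * s.1 + s.2)) := h_congr fun x _ y _ => by
    simp only [Prod.mk.injEq]
    tauto
  have h4 := h_fst U V hU hV f
  unfold hzm
  unfold ce at h1 h2 ⊢
  rw [h3]
  linarith

/-- **The two sides.** -/
theorem main (m : ℕ) (hm : 1 ≤ m) {η : ℝ} (hη : 0 < η) (hη1 : η ≤ 1) :
    ∃ (K : ℕ) (B : ℝ), 0 ≤ B ∧ ∀ A : Finset ℤ, A.Nonempty → (0 : ℤ) ∉ A →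
      ∃ H₁ : ℝ, 0 ≤ H₁ ∧ H₁ ≤ Real.log A.card ∧
      (∀ k : ℕ, 1 ≤ k → k ≤ m → k * Real.log A.card - (k - 1) * H₁ - η * Real.log A.card - B ≤
        Real.log (pk k A).card) ∧
      (∀ V : Finset ℤ, V.Nonempty → ∃ l : ℕ, 1 ≤ l ∧ l ≤ K ∧ Real.log V.card + H₁ -
        η * (Real.log A.card + Real.log V.card) - B ≤
        Real.log ((A ×ˢ V).image fun s => (l : ℤ) * s.1 + s.2).card) := by
  have hmr : (1 : ℝ) ≤ m := by exact_mod_cast hm
  set κ : ℝ := η / m ^ 2 with hκ
  have hκ0 : 0 < κ := by positivity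
  have hκ1 : κ ≤ 1 := by
    rw [hκ, div_le_one (by positivity)]
    nlinarith
  set θ : ℝ := Real.exp (-(4 / κ)) with hθ
  have hθ0 : 0 < θ := Real.exp_pos _
  have h4κ : 4 ≤ 4 / κ := by
    rw [le_div_iff₀ hκ0]
    linarith
  have hθ1 : θ ≤ 1 / 3 := by
    have h1 : 3 ≤ Real.exp (4 / κ) := by
      have := Real.add_one_le_exp (4 / κ)
      linarith
    rw [hθ, Real.exp_neg, ← one_div]
    exact one_div_le_one_div_of_le (by norm_num) h1
  have hlθ : Real.log (1 / θ) = 4 / κ := by
    rw [hθ, one_div, Real.log_inv, Real.log_exp]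
    ring
  set τ₀ : ℝ := κ * θ / (2 * m) with hτ₀
  have hτ₀0 : 0 < τ₀ := by positivity
  have hsum : 2 / Real.log (1 / θ) + m * τ₀ / θ = κ := by
    rw [hlθ, hτ₀]
    field_simp
    ring
  set δ : ℝ := η / 10 with hδ
  have hδ0 : 0 < δ := by positivity
  set δ₁ : ℝ := η * τ₀ / 2 with hδ₁
  have hδ₁0 : 0 < δ₁ := by positivity
  obtain ⟨K, B, hB, hmult⟩ := exists_mult hδ0 (by linarith : δ ≤ 1) hδ₁0
  have hl2 : 0 < Real.log 2 := Real.log_pos (by norm_num)
  refine ⟨K, max B (m * Real.log 2), le_max_of_le_left hB, ?_⟩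
  intro A hA h0
  have hAc : (1 : ℝ) ≤ A.card := by exact_mod_cast card_pos.2 hA
  set a := Real.log A.card with ha
  have ha0 : 0 ≤ a := Real.log_nonneg hAc
  obtain ⟨P, hPA, hP1, hP2⟩ := exists_basis A τ₀
  have hH0 := h_nonneg A (wp P)
  have hHa : h A (wp P) ≤ a := by
    refine (h_le_log hA _).trans (Real.log_le_log ?_ ?_)
    · exact_mod_cast card_pos.2 (hA.image _)
    · exact_mod_cast card_image_le
  refine ⟨h A (wp P), hH0, hHa, ?_, ?_⟩
  · intro k hk hkm
    have hkr : (1 : ℝ) ≤ k := by exact_mod_cast hk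
    have hkmr : (k : ℝ) ≤ m := by exact_mod_cast hkm
    have h1 := prod_lab A hA h0 P hτ₀0.le hθ0 hθ1 m (by rw [hsum]; exact hκ1) hP2 k hk hkm
    have e1 : 1 - 2 / Real.log (1 / θ) - m * τ₀ / θ = 1 - κ := by linarith
    rw [e1] at h1
    set c := (1 - κ) ^ (k - 1) with hc
    have hc0 : 0 ≤ c := pow_nonneg (by linarith) _
    have hc1 : c ≤ 1 := pow_le_one₀ (by linarith) (by linarith)
    have hbern : 1 - (k : ℝ) * κ ≤ c := by
      have h2 := one_add_mul_le_pow (show (-2 : ℝ) ≤ -κ by linarith) (k - 1)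
      have h3 : ((k - 1 : ℕ) : ℝ) ≤ k := by exact_mod_cast Nat.sub_le _ _
      have h4 : 1 - (k : ℝ) * κ ≤ 1 + ((k - 1 : ℕ) : ℝ) * (-κ) := by nlinarith
      rw [hc, sub_eq_add_neg 1 κ]
      exact h4.trans h2
    set D := a - Real.log 2 - h A (wp P) with hD
    have hDa : D ≤ a := by linarith
    have h2 : D - k * κ * a ≤ c * D := by
      rcases le_or_gt 0 D with h3 | h3
      · have h4 := mul_le_mul_of_nonneg_right hbern h3
        have h5 : (k : ℝ) * κ * D ≤ k * κ * a := mul_le_mul_of_nonneg_left hDa (by positivity)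
        linarith
      · have h4 : 0 ≤ (k : ℝ) * κ * a := by positivity
        nlinarith
    have h3 : (k : ℝ) * κ * a * k ≤ η * a := by
      have h4 : (k : ℝ) * k ≤ m ^ 2 := by nlinarith
      have h5 : κ * m ^ 2 = η := by
        rw [hκ]
        field_simp
      have h6 : κ * (k * k) ≤ η := by
        rw [← h5]
        exact mul_le_mul_of_nonneg_left h4 hκ0.le
      have h7 := mul_le_mul_of_nonneg_right h6 ha0
      linarith
    have h4 := mul_le_mul_of_nonneg_right h2 (show (0 : ℝ) ≤ k by positivity)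
    have h5 : (k : ℝ) * Real.log 2 ≤ max B (m * Real.log 2) :=
      le_trans (mul_le_mul_of_nonneg_right hkmr hl2.le) (le_max_right _ _)
    have h6 : c * k * D = c * D * k := by ring
    rw [h6] at h1
    have h7 : D * k = k * a - k * Real.log 2 - k * h A (wp P) := by
      rw [hD]
      ring
    linarith
  · intro V hV
    have hPp : ∀ p ∈ P.toList, p.Prime := fun p hp =>
      prime_of_mem_pr (hPA (Finset.mem_toList.1 hp))
    obtain ⟨l, hl1, hl2', hl3⟩ := hmult P.toList A V P.nodup_toList hPp h0 hA hV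
    refine ⟨l, hl1, hl2', ?_⟩
    have h1 := sum_step (l : ℤ) A V hA hV (fL P.toList)
    have h2 : h A (fL P.toList) = h A (wp P) := h_congr fun x _ y _ => by
      rw [fL_eq_iff, wp_eq_iff]
      simp only [Finset.mem_toList]
    rw [h2] at h1 hl3
    rw [Finset.length_toList] at hl3
    have hlv := log_card_nonneg V
    have h3 : δ₁ * P.card ≤ η / 2 * a := by
      have h4 : η / 2 * (τ₀ * P.card) ≤ η / 2 * a :=
        mul_le_mul_of_nonneg_left (hP1.trans hHa) (by positivity)
      have h5 : δ₁ * P.card = η / 2 * (τ₀ * P.card) := by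
        rw [hδ₁]
        ring
      linarith
    have h4 : 5 * δ * (h A (wp P) + Real.log V.card) ≤ η / 2 * (a + Real.log V.card) := by
      have h5 : 5 * δ = η / 2 := by
        rw [hδ]
        ring
      rw [h5]
      exact mul_le_mul_of_nonneg_left (by linarith) (by positivity)
    have h5 := le_max_left B (m * Real.log 2)
    have h6 : 0 ≤ η / 2 * Real.log V.card := by positivity
    linarith

end Pool.Agent.T2H12.KD
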